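import Pool.Agent.TH734.NestE

set_option autoImplicit false

/-!
# The languages are context-free
-/

namespace Pool.Agent.TH734.Nst

open Pool.Agent.Helper336.CF

theorem cf_of_rules {T N : Type} (rules : List (N × List (Symbol T N))) (init : N)
    (S : N → Set (List T))
    (hS : ∀ r ∈ rules, ∀ w, Comp S r.2 w → w ∈ S r.1)
    (hC : ∀ S' : N → Set (List T), (∀ r ∈ rules, ∀ w, Comp S' r.2 w → w ∈ S' r.1) →
      S init ⊆ S' init) : IsCF (S init) := by
  classical
  let g : ContextFreeGrammar T :=
    ⟨N, init, (rules.map (fun r => (⟨r.1, r.2⟩ : ContextFreeRule T N))).toFinset⟩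
  refine ⟨g, ?_⟩
  have hr : ∀ r : ContextFreeRule T N, r ∈ g.rules ↔ (r.input, r.output) ∈ rules := by
    intro r
    change r ∈ (rules.map (fun r => (⟨r.1, r.2⟩ : ContextFreeRule T N))).toFinset ↔ _
    rw [List.mem_toFinset, List.mem_map]
    constructor
    · rintro ⟨r', h, rfl⟩; exact h
    · intro h; exact ⟨_, h, rfl⟩
  ext w
  refine language_eq g S ?_ ?_ w
  · intro r h w hw
    exact hS _ ((hr r).1 h) w hw
  · intro w hw
    refine hC (Gen g) ?_ hw
    intro r h w hw
    exact gen_of_rule g ⟨r.1, r.2⟩ ((hr _).2 h) w hw

open Symbol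

/-! ### trees -/

theorem ET_cf : ET.IsContextFree := by
  refine cf_of_rules (T := A4) (N := Unit) [((), [terminal A4.d]),
    ((), [terminal A4.a, nonterminal (), terminal A4.b, nonterminal (), terminal A4.c])] ()
    (fun _ => {w | Et w}) ?_ ?_
  · intro r hr w hw
    simp only [List.mem_cons, List.not_mem_nil, or_false] at hr
    rcases hr with rfl | rfl
    · obtain ⟨w', rfl, rfl⟩ := hw
      exact Et.leaf
    · obtain ⟨_, rfl, u, _, rfl, hu, _, rfl, v, _, rfl, hv, _, rfl, rfl⟩ := hw
      exact Et.node hu hv
  · intro S' hS' w hw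
    have hw' : Et w := hw
    induction hw' with
    | leaf => exact hS' ((), [terminal A4.d]) (by simp) _ ⟨_, rfl, rfl⟩
    | @node u v hu hv ihu ihv =>
      exact hS' ((), [terminal A4.a, nonterminal (), terminal A4.b, nonterminal (),
        terminal A4.c]) (by simp) _
        ⟨_, rfl, u, _, rfl, ihu hu, _, rfl, v, _, rfl, ihv hv, _, rfl, rfl⟩

/-! ### letters -/

theorem cf_letters {T : Type} (X : List T) : IsCF (T := T) {w | ∀ a ∈ w, a ∈ X} := by
  refine cf_of_rules (T := T) (N := Unit) (((), []) :: X.map (fun x => ((), [terminal x,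
    nonterminal ()]))) () (fun _ => {w | ∀ a ∈ w, a ∈ X}) ?_ ?_
  · intro r hr w hw
    rcases List.mem_cons.1 hr with rfl | hr
    · have : w = [] := hw
      subst this
      intro a ha; simp at ha
    · obtain ⟨x, hx, rfl⟩ := List.mem_map.1 hr
      obtain ⟨_, rfl, u, v, rfl, hu, rfl⟩ := hw
      intro a ha
      rcases List.mem_cons.1 ha with rfl | ha
      · exact hx
      · exact hu a (by simpa using ha)
  · intro S' hS' w hw
    induction w with
    | nil => exact hS' ((), []) (by simp) _ rfl
    | cons a w ih =>
      refine hS' ((), [terminal a, nonterminal ()]) ?_ _ ⟨w, rfl, w, [], by simp, ih ?_, rfl⟩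
      · refine List.mem_cons.2 (Or.inr (List.mem_map.2 ⟨a, hw a (by simp), rfl⟩))
      · intro b hb; exact hw b (by simp [hb])

theorem cf_univ' {T : Type} [Fintype T] : IsCF (T := T) Set.univ := by
  have := cf_letters (T := T) (Finset.univ : Finset T).toList
  convert this using 1
  ext w
  simp

/-! ### the first part -/

theorem K_cf : IsCF (T := G) {w | ∃ a b : ℕ, b ≤ 2 * a ∧
    w = List.replicate a G.s ++ G.t :: List.replicate b G.s} := by
  refine cf_of_rules (T := G) (N := Unit) [((), [terminal G.t]),
    ((), [terminal G.s, nonterminal ()]),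
    ((), [terminal G.s, nonterminal (), terminal G.s]),
    ((), [terminal G.s, nonterminal (), terminal G.s, terminal G.s])] ()
    (fun _ => {w | ∃ a b : ℕ, b ≤ 2 * a ∧
      w = List.replicate a G.s ++ G.t :: List.replicate b G.s}) ?_ ?_
  · intro r hr w hw
    simp only [List.mem_cons, List.not_mem_nil, or_false] at hr
    rcases hr with rfl | rfl | rfl | rfl
    · obtain ⟨w', rfl, rfl⟩ := hw
      exact ⟨0, 0, by simp, rfl⟩
    · obtain ⟨_, rfl, _, _, rfl, ⟨a, b, hab, rfl⟩, rfl⟩ := hw
      exact ⟨a + 1, b, by omega, by rw [List.replicate_succ]; simp⟩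
    · obtain ⟨_, rfl, _, _, rfl, ⟨a, b, hab, rfl⟩, _, rfl, rfl⟩ := hw
      refine ⟨a + 1, b + 1, by omega, ?_⟩
      rw [List.replicate_succ, List.replicate_succ']; simp
    · obtain ⟨_, rfl, _, _, rfl, ⟨a, b, hab, rfl⟩, _, rfl, _, rfl, rfl⟩ := hw
      refine ⟨a + 1, b + 2, by omega, ?_⟩
      rw [List.replicate_succ, List.replicate_succ', List.replicate_succ']; simp
  · rintro S' hS' _ ⟨a, b, hab, rfl⟩
    induction a generalizing b with
    | zero =>
      have : b = 0 := by omega
      subst this
      exact hS' ((), [terminal G.t]) (by simp) _ ⟨_, rfl, rfl⟩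
    | succ a ih =>
      have hc : b ≤ 2 * a ∨ b = 2 * a + 1 ∨ b = 2 * a + 2 := by omega
      rcases hc with h | rfl | rfl
      · exact hS' ((), [terminal G.s, nonterminal ()]) (by simp) _
          ⟨_, by rw [List.replicate_succ]; rfl, _, [], by simp, ih b h, rfl⟩
      · exact hS' ((), [terminal G.s, nonterminal (), terminal G.s]) (by simp) _
          ⟨_, by rw [List.replicate_succ]; rfl, _, [G.s],
            by rw [List.replicate_succ']; simp, ih (2 * a) le_rfl, _, rfl, rfl⟩
      · exact hS' ((), [terminal G.s, nonterminal (), terminal G.s, terminal G.s]) (by simp) _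
          ⟨_, by rw [List.replicate_succ]; rfl, _, [G.s, G.s],
            by rw [List.replicate_succ', List.replicate_succ']; simp,
            ih (2 * a) le_rfl, _, rfl, _, rfl, rfl⟩

theorem G1_cf : IsCF G1 := by
  have h := cf_cat (cf_cat (cf_univ' (T := G)) K_cf) (cf_cat (cf_singleton [G.t])
    (cf_univ' (T := G)))
  convert h using 1
  ext w
  constructor
  · rintro ⟨α, β, a, b, hab, rfl⟩
    refine ⟨α ++ (List.replicate a G.s ++ G.t :: List.replicate b G.s),
      ⟨α, Set.mem_univ _, _, ⟨a, b, hab, rfl⟩, rfl⟩, G.t :: β, ⟨[G.t], rfl, β, Set.mem_univ _, rfl⟩,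
      by simp⟩
  · rintro ⟨_, ⟨α, -, _, ⟨a, b, hab, rfl⟩, rfl⟩, _, ⟨_, rfl, β, -, rfl⟩, rfl⟩
    exact ⟨α, β, a, b, hab, by simp⟩

/-! ### the second part -/

theorem last_rise {p q : G} (hpq : p ≠ q) : ∀ (n : ℕ) (u : List G), u.length ≤ n →
    u.count q + 1 ≤ u.count p → ∃ u1 m, u = u1 ++ p :: m ∧
      u1.count p + u.count q + 1 = u1.count q + u.count p ∧ m.count p = m.count q := by
  intro n
  induction n with
  | zero =>
    intro u hn hc
    have : u = [] := List.length_eq_zero_iff.1 (by omega)
    subst this
    simp at hc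
  | succ n ih =>
    intro u hn hc
    rcases List.eq_nil_or_concat u with rfl | ⟨u', x, rfl⟩
    · simp at hc
    · rw [List.concat_eq_append] at hn hc ⊢
      simp only [List.length_append, List.length_cons, List.length_nil] at hn
      rw [List.count_append, List.count_append] at hc ⊢
      by_cases hxp : x = p
      · subst hxp
        refine ⟨u', [], rfl, ?_, rfl⟩
        simp [hpq]
        omega
      · by_cases hxq : x = q
        · subst hxq
          simp [hxp] at hc
          obtain ⟨u1, m, rfl, h1, h2⟩ := ih u' (by omega) (by omega)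
          have hlen : u1.length ≤ n := by
            simp only [List.length_append, List.length_cons] at hn
            omega
          obtain ⟨u2, m', rfl, h3, h4⟩ := ih u1 hlen (by omega)
          refine ⟨u2, m' ++ p :: (m ++ [x]), by simp, ?_, ?_⟩
          · simp [hxp] at h1 h3 ⊢
            omega
          · simp [hxp, Ne.symm hxp]
            omega
        · simp [hxp, hxq] at hc
          obtain ⟨u1, m, rfl, h1, h2⟩ := ih u' (by omega) (by omega)
          refine ⟨u1, m ++ [x], by simp, ?_, ?_⟩
          · simp [hxp, hxq] at h1 ⊢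
            omega
          · simp [hxp, hxq]
            exact h2

/-- the sets of the grammar of the second part -/
def S2 : Bool → Set (List G)
  | false => {w | ∃ w0 u : List G, (∀ a ∈ w0, a = G.s ∨ a = G.t) ∧
      u.count G.r + w0.count G.t + 1 ≤ u.count G.l ∧ w = w0 ++ G.h :: u}
  | true => {u | u.count G.r ≤ u.count G.l}

/-- the neutral letters -/
def neu : List G := [G.s, G.t, G.h, G.o true, G.o false, G.c true, G.c false]

theorem neu_spec (x : G) (hl : x ≠ G.l) (hr : x ≠ G.r) : x ∈ neu := by
  cases x with
  | l => exact absurd rfl hl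
  | r => exact absurd rfl hr
  | s => simp [neu]
  | t => simp [neu]
  | h => simp [neu]
  | o b => cases b <;> simp [neu]
  | c b => cases b <;> simp [neu]

theorem neu_spec' (x : G) (h : x ∈ neu) : x ≠ G.l ∧ x ≠ G.r := by
  simp only [neu, List.mem_cons, List.not_mem_nil, or_false] at h
  rcases h with rfl | rfl | rfl | rfl | rfl | rfl | rfl <;> exact ⟨by simp, by simp⟩

/-- the rules of the grammar of the second part -/
def rules2 : List (Bool × List (Symbol G Bool)) :=
  [(false, [terminal G.s, nonterminal false]),
    (false, [terminal G.t, nonterminal false, terminal G.l, nonterminal true]),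
    (false, [terminal G.h, nonterminal true, terminal G.l, nonterminal true]),
    (true, []),
    (true, [terminal G.l, nonterminal true]),
    (true, [terminal G.l, nonterminal true, terminal G.r, nonterminal true]),
    (true, [terminal G.r, nonterminal true, terminal G.l, nonterminal true])] ++
  neu.map (fun x => (true, [terminal x, nonterminal true]))

theorem S2_cf : IsCF (S2 false) := by
  refine cf_of_rules (T := G) (N := Bool) rules2 false S2 ?_ ?_
  · intro r hr w hw
    rcases List.mem_append.1 hr with hr | hr
    · simp only [List.mem_cons, List.not_mem_nil, or_false] at hr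
      rcases hr with rfl | rfl | rfl | rfl | rfl | rfl | rfl
      · obtain ⟨_, rfl, _, _, rfl, ⟨w0, u, h0, hc, rfl⟩, rfl⟩ := hw
        refine ⟨G.s :: w0, u, ?_, by simpa using hc, by simp⟩
        intro a ha
        rcases List.mem_cons.1 ha with rfl | ha
        · exact Or.inl rfl
        · exact h0 a ha
      · obtain ⟨_, rfl, _, _, rfl, ⟨w0, u, h0, hc, rfl⟩, _, rfl, m, _, rfl, hm, rfl⟩ := hw
        have hm' : m.count G.r ≤ m.count G.l := hm
        refine ⟨G.t :: w0, u ++ G.l :: m, ?_, ?_, by simp⟩
        · intro a ha
          rcases List.mem_cons.1 ha with rfl | ha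
          · exact Or.inr rfl
          · exact h0 a ha
        · simp
          omega
      · obtain ⟨_, rfl, m1, _, rfl, hm1, _, rfl, m, _, rfl, hm, rfl⟩ := hw
        have hm' : m.count G.r ≤ m.count G.l := hm
        have hm1' : m1.count G.r ≤ m1.count G.l := hm1
        refine ⟨[], m1 ++ G.l :: m, by simp, ?_, by simp⟩
        simp
        omega
      · have : w = [] := hw
        subst this
        exact Nat.le_refl 0
      · obtain ⟨_, rfl, m, _, rfl, hm, rfl⟩ := hw
        have hm' : m.count G.r ≤ m.count G.l := hm
        change (G.l :: (m ++ [])).count G.r ≤ (G.l :: (m ++ [])).count G.l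
        simp
        omega
      · obtain ⟨_, rfl, m, _, rfl, hm, _, rfl, m1, _, rfl, hm1, rfl⟩ := hw
        have hm' : m.count G.r ≤ m.count G.l := hm
        have hm1' : m1.count G.r ≤ m1.count G.l := hm1
        change (G.l :: (m ++ G.r :: (m1 ++ []))).count G.r ≤
          (G.l :: (m ++ G.r :: (m1 ++ []))).count G.l
        simp
        omega
      · obtain ⟨_, rfl, m, _, rfl, hm, _, rfl, m1, _, rfl, hm1, rfl⟩ := hw
        have hm' : m.count G.r ≤ m.count G.l := hm
        have hm1' : m1.count G.r ≤ m1.count G.l := hm1
        change (G.r :: (m ++ G.l :: (m1 ++ []))).count G.r ≤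
          (G.r :: (m ++ G.l :: (m1 ++ []))).count G.l
        simp
        omega
    · obtain ⟨x, hx, rfl⟩ := List.mem_map.1 hr
      obtain ⟨hx1, hx2⟩ := neu_spec' x hx
      obtain ⟨_, rfl, m, _, rfl, hm, rfl⟩ := hw
      have hm' : m.count G.r ≤ m.count G.l := hm
      change (x :: (m ++ [])).count G.r ≤ (x :: (m ++ [])).count G.l
      simp [hx1, hx2]
      exact hm'
  · intro S' hS'
    have hM : ∀ (n : ℕ) (u : List G), u.length ≤ n → u.count G.r ≤ u.count G.l → u ∈ S' true := by
      intro n
      induction n with
      | zero =>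
        intro u hn _
        have : u = [] := List.length_eq_zero_iff.1 (by omega)
        subst this
        exact hS' (true, []) (by simp [rules2]) _ rfl
      | succ n ih =>
        intro u hn hc
        cases u with
        | nil => exact hS' (true, []) (by simp [rules2]) _ rfl
        | cons x u =>
          simp only [List.length_cons] at hn
          by_cases hl : x = G.l
          · subst hl
            simp at hc
            by_cases h1 : u.count G.r ≤ u.count G.l
            · exact hS' (true, [terminal G.l, nonterminal true]) (by simp [rules2]) _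
                ⟨u, rfl, u, [], by simp, ih u (by omega) h1, rfl⟩
            · obtain ⟨u1, m, rfl, h2, h3⟩ := last_rise (p := G.r) (q := G.l) (by simp)
                u.length u le_rfl (by omega)
              simp at h1 h2 hc hn
              refine hS' (true, [terminal G.l, nonterminal true, terminal G.r, nonterminal true])
                (by simp [rules2]) _ ⟨_, rfl, u1, _, rfl, ih u1 (by omega) (by omega), _, rfl, m, [],
                  by simp, ih m (by omega) (by omega), rfl⟩
          · by_cases hr : x = G.r
            · subst hr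
              simp at hc
              obtain ⟨u1, m, rfl, h2, h3⟩ := last_rise (p := G.l) (q := G.r) (by simp)
                u.length u le_rfl (by omega)
              simp at h2 hc hn
              refine hS' (true, [terminal G.r, nonterminal true, terminal G.l, nonterminal true])
                (by simp [rules2]) _ ⟨_, rfl, u1, _, rfl, ih u1 (by omega) (by omega), _, rfl, m, [],
                  by simp, ih m (by omega) (by omega), rfl⟩
            · simp [hl, hr] at hc
              refine hS' (true, [terminal x, nonterminal true]) ?_ _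
                ⟨u, rfl, u, [], by simp, ih u (by omega) hc, rfl⟩
              refine List.mem_append.2 (Or.inr (List.mem_map.2 ⟨x, neu_spec x hl hr, rfl⟩))
    rintro _ ⟨w0, u, h0, hc, rfl⟩
    induction w0 generalizing u with
    | nil =>
      simp at hc
      obtain ⟨u1, m, rfl, h2, h3⟩ := last_rise (p := G.l) (q := G.r) (by simp)
        u.length u le_rfl (by omega)
      simp at h2 hc
      exact hS' (false, [terminal G.h, nonterminal true, terminal G.l, nonterminal true])
        (by simp [rules2]) _ ⟨_, rfl, u1, _, rfl, hM _ u1 le_rfl (by omega), _, rfl, m, [],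
          by simp, hM _ m le_rfl (by omega), rfl⟩
    | cons x w0 ih =>
      rcases h0 x (by simp) with rfl | rfl
      · exact hS' (false, [terminal G.s, nonterminal false]) (by simp [rules2]) _
          ⟨_, rfl, w0 ++ G.h :: u, [], by simp,
            ih u (fun a ha => h0 a (by simp [ha])) (by simpa using hc), rfl⟩
      · simp at hc
        obtain ⟨u1, m, rfl, h2, h3⟩ := last_rise (p := G.l) (q := G.r) (by simp)
          u.length u le_rfl (by omega)
        simp at h2 hc
        exact hS' (false, [terminal G.t, nonterminal false, terminal G.l, nonterminal true])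
          (by simp [rules2]) _ ⟨_, rfl, w0 ++ G.h :: u1, G.l :: m, by simp,
            ih u1 (fun a ha => h0 a (by simp [ha])) (by omega), _, rfl, m, [], by simp,
            hM _ m le_rfl (by omega), rfl⟩

theorem G2_cf : IsCF G2 := by
  have h := cf_cat S2_cf (cf_univ' (T := G))
  convert h using 1
  ext w
  constructor
  · rintro ⟨w0, u, v, h0, hc, rfl⟩
    exact ⟨w0 ++ G.h :: u, ⟨w0, u, h0, hc, rfl⟩, v, Set.mem_univ _, by simp⟩
  · rintro ⟨_, ⟨w0, u, h0, hc, rfl⟩, v, -, rfl⟩
    exact ⟨w0, u, v, h0, hc, by simp⟩

/-! ### the third part -/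

theorem Q_cf : IsCF (T := G) {w | Q w} := by
  refine cf_of_rules (T := G) (N := Unit) [((), []),
    ((), [terminal (G.o true), nonterminal (), terminal (G.c true)]),
    ((), [terminal (G.o false), nonterminal (), terminal (G.c false)]),
    ((), [terminal G.l, nonterminal (), terminal G.r, nonterminal ()]),
    ((), [nonterminal (), terminal G.l, nonterminal (), terminal G.r])] ()
    (fun _ => {w | Q w}) ?_ ?_
  · intro r hr w hw
    simp only [List.mem_cons, List.not_mem_nil, or_false] at hr
    rcases hr with rfl | rfl | rfl | rfl | rfl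
    · have : w = [] := hw
      subst this
      exact Q.nil
    · obtain ⟨_, rfl, u, _, rfl, hu, _, rfl, rfl⟩ := hw
      exact Q.wrap true hu
    · obtain ⟨_, rfl, u, _, rfl, hu, _, rfl, rfl⟩ := hw
      exact Q.wrap false hu
    · obtain ⟨_, rfl, u, _, rfl, hu, _, rfl, v, _, rfl, hv, rfl⟩ := hw
      have := Q.left hu hv
      change Q _
      simpa using this
    · obtain ⟨u, _, rfl, hu, _, rfl, v, _, rfl, hv, _, rfl, rfl⟩ := hw
      exact Q.right hu hv
  · intro S' hS' w hw
    have hw' : Q w := hw
    induction hw' with
    | nil => exact hS' ((), []) (by simp) _ rfl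
    | @wrap x w hw1 ih =>
      cases x with
      | true =>
        exact hS' ((), [terminal (G.o true), nonterminal (), terminal (G.c true)]) (by simp) _
          ⟨_, rfl, w, _, rfl, ih hw1, _, rfl, rfl⟩
      | false =>
        exact hS' ((), [terminal (G.o false), nonterminal (), terminal (G.c false)]) (by simp) _
          ⟨_, rfl, w, _, rfl, ih hw1, _, rfl, rfl⟩
    | @left u w hu hw1 ihu ihw =>
      exact hS' ((), [terminal G.l, nonterminal (), terminal G.r, nonterminal ()]) (by simp) _
        ⟨_, rfl, u, _, rfl, ihu hu, _, rfl, w, [], by simp, ihw hw1, rfl⟩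
    | @right u w hw1 hu ihw ihu =>
      exact hS' ((), [nonterminal (), terminal G.l, nonterminal (), terminal G.r]) (by simp) _
        ⟨w, _, rfl, ihw hw1, _, rfl, u, _, rfl, ihu hu, _, rfl, rfl⟩

theorem G3_cf : IsCF G3 := by
  have h := cf_cat (cf_letters [G.s, G.t]) (cf_cat (cf_singleton [G.h]) Q_cf)
  convert h using 1
  ext w
  constructor
  · rintro ⟨w0, y, h0, hQ, rfl⟩
    refine ⟨w0, ?_, G.h :: y, ⟨[G.h], rfl, y, hQ, rfl⟩, rfl⟩
    intro a ha
    rcases h0 a ha with rfl | rfl <;> simp
  · rintro ⟨w0, h0, _, ⟨_, rfl, y, hQ, rfl⟩, rfl⟩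
    refine ⟨w0, y, ?_, hQ, rfl⟩
    intro a ha
    have := h0 a ha
    simpa using this

theorem LL_cf : LL.IsContextFree := by
  have h := cf_union G1_cf (cf_union G2_cf G3_cf)
  exact h

end Pool.Agent.TH734.Nst
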