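import Pool.Agent.H643R2.TrOps
import Pool.Agent.Helper336.CF

set_option autoImplicit false

/-!
# Nested palindromes with a doubling prefix

The letters `s`, `t` build the prefix, `h` separates the prefix from the nested word, `l`, `r` are
brackets, `o b`, `c b` are the letters of the palindromes.
-/

namespace Pool.Agent.TH734.Nst

open Pool.Agent.Helper288.Cone
open Pool.Agent.H643R2

/-- the nine letters -/
inductive G | s | t | h | l | r | o (b : Bool) | c (b : Bool)
  deriving DecidableEq, Fintype

/-- nested palindromes with at most `k` nested brackets -/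
inductive P : ℕ → List G → Prop
  | nil {k : ℕ} : P k []
  | wrap {k : ℕ} (x : Bool) {w : List G} : P k w → P k (G.o x :: (w ++ [G.c x]))
  | left {k : ℕ} {u w : List G} : P k u → P (k + 1) w → P (k + 1) (G.l :: (u ++ G.r :: w))
  | right {k : ℕ} {u w : List G} : P (k + 1) w → P k u → P (k + 1) (w ++ G.l :: (u ++ [G.r]))

/-- nested palindromes -/
inductive Q : List G → Prop
  | nil : Q []
  | wrap (x : Bool) {w : List G} : Q w → Q (G.o x :: (w ++ [G.c x]))
  | left {u w : List G} : Q u → Q w → Q (G.l :: (u ++ G.r :: w))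
  | right {u w : List G} : Q w → Q u → Q (w ++ G.l :: (u ++ [G.r]))

/-- one step of the bracket counter bounded by `k` -/
def stp (k d : ℕ) : G → Option ℕ
  | G.o _ => some d
  | G.c _ => some d
  | G.l => if d + 1 ≤ k then some (d + 1) else none
  | G.r => match d with
    | 0 => none
    | d' + 1 => some d'
  | _ => none

/-- the bracket counter bounded by `k` -/
def dst (k : ℕ) : ℕ → List G → Option ℕ
  | d, [] => some d
  | d, a :: w => (stp k d a).bind fun d' => dst k d' w

@[simp] theorem dst_nil (k d : ℕ) : dst k d [] = some d := rfl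

theorem dst_cons (k d : ℕ) (a : G) (w : List G) :
    dst k d (a :: w) = (stp k d a).bind fun d' => dst k d' w := rfl

@[simp] theorem dst_o (k d : ℕ) (b : Bool) (w : List G) : dst k d (G.o b :: w) = dst k d w := rfl
@[simp] theorem dst_c (k d : ℕ) (b : Bool) (w : List G) : dst k d (G.c b :: w) = dst k d w := rfl
@[simp] theorem dst_r0 (k : ℕ) (w : List G) : dst k 0 (G.r :: w) = none := rfl
@[simp] theorem dst_rs (k d : ℕ) (w : List G) : dst k (d + 1) (G.r :: w) = dst k d w := rfl
@[simp] theorem dst_s (k d : ℕ) (w : List G) : dst k d (G.s :: w) = none := rfl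
@[simp] theorem dst_t (k d : ℕ) (w : List G) : dst k d (G.t :: w) = none := rfl
@[simp] theorem dst_h (k d : ℕ) (w : List G) : dst k d (G.h :: w) = none := rfl

theorem dst_l (k d : ℕ) (w : List G) (h : d + 1 ≤ k) : dst k d (G.l :: w) = dst k (d + 1) w := by
  simp [dst_cons, stp, h]

theorem dst_l_some {k d e : ℕ} {w : List G} (h : dst k d (G.l :: w) = some e) :
    d + 1 ≤ k ∧ dst k (d + 1) w = some e := by
  by_cases hd : d + 1 ≤ k
  · rw [dst_l k d w hd] at h; exact ⟨hd, h⟩
  · simp [dst_cons, stp, hd] at h

theorem dst_append (k : ℕ) (u v : List G) : ∀ d,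
    dst k d (u ++ v) = (dst k d u).bind fun d' => dst k d' v := by
  induction u with
  | nil => intro d; rfl
  | cons a u ih =>
    intro d
    rw [List.cons_append, dst_cons, dst_cons]
    cases stp k d a with
    | none => rfl
    | some d' => simpa using ih d'

theorem dst_append_some {k d e : ℕ} {u v : List G} (h : dst k d (u ++ v) = some e) :
    ∃ d', dst k d u = some d' ∧ dst k d' v = some e := by
  rw [dst_append] at h
  cases hu : dst k d u with
  | none => rw [hu] at h; simp at h
  | some d' => rw [hu] at h; exact ⟨d', rfl, h⟩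

theorem P_dst {j : ℕ} {w : List G} (h : P j w) : ∀ k d, d + j ≤ k → dst k d w = some d := by
  induction h with
  | nil => intro k d _; rfl
  | @wrap j x w _ ih =>
    intro k d hd
    rw [dst_o, dst_append, ih k d hd]; rfl
  | @left j u w _ _ ihu ihw =>
    intro k d hd
    rw [dst_l k d _ (by omega), dst_append, ihu k (d + 1) (by omega)]
    simp only [Option.bind_some, dst_rs]
    exact ihw k d hd
  | @right j u w _ _ ihw ihu =>
    intro k d hd
    rw [dst_append, ihw k d hd]
    simp only [Option.bind_some]
    rw [dst_l k d _ (by omega), dst_append, ihu k (d + 1) (by omega)]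
    simp only [Option.bind_some, dst_rs, dst_nil]

theorem Q_dst {w : List G} (h : Q w) : ∀ k d e, d ≤ k → dst k d w = some e → P (k - d) w := by
  induction h with
  | nil => intro k d e _ _; exact P.nil
  | @wrap x w _ ih =>
    intro k d e hd he
    rw [dst_o] at he
    obtain ⟨d', h1, _⟩ := dst_append_some he
    exact P.wrap x (ih k d d' hd h1)
  | @left u w _ _ ihu ihw =>
    intro k d e hd he
    obtain ⟨h1, h2⟩ := dst_l_some he
    obtain ⟨d', h3, h4⟩ := dst_append_some h2
    have h5 := ihu k (d + 1) d' h1 h3
    have h6 : dst k (d + 1) u = some (d + 1) := P_dst h5 k (d + 1) (by omega)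
    rw [h6] at h3
    obtain rfl := Option.some.inj h3
    rw [dst_rs] at h4
    have h7 := ihw k d e hd h4
    have e1 : k - d = (k - (d + 1)) + 1 := by omega
    rw [e1] at h7 ⊢
    exact P.left h5 h7
  | @right u w _ _ ihw ihu =>
    intro k d e hd he
    obtain ⟨d', h1, h2⟩ := dst_append_some he
    have h3 := ihw k d d' hd h1
    have h4 : dst k d w = some d := P_dst h3 k d (by omega)
    rw [h4] at h1
    obtain rfl := Option.some.inj h1
    obtain ⟨h5, h6⟩ := dst_l_some h2
    obtain ⟨d'', h7, _⟩ := dst_append_some h6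
    have h8 := ihu k (d + 1) d'' h5 h7
    have e1 : k - d = (k - (d + 1)) + 1 := by omega
    rw [e1] at h3 ⊢
    exact P.right h3 h8

theorem Q_of_P {k : ℕ} {w : List G} (h : P k w) : Q w := by
  induction h with
  | nil => exact Q.nil
  | wrap x _ ih => exact Q.wrap x ih
  | left _ _ ihu ihw => exact Q.left ihu ihw
  | right _ _ ihw ihu => exact Q.right ihw ihu

theorem P_succ {k : ℕ} {w : List G} (h : P k w) : P (k + 1) w := by
  have := Q_dst (Q_of_P h) (k + 1) 0 0 (by omega) (P_dst h _ _ (by omega))
  simpa using this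

/-- count of the bracket counter -/
theorem dst_count {k : ℕ} (w : List G) : ∀ d e, d ≤ k → dst k d w = some e →
    e ≤ k ∧ e + w.count G.r = d + w.count G.l := by
  induction w with
  | nil => intro d e hd h; simp at h; subst h; exact ⟨hd, by simp⟩
  | cons a w ih =>
    intro d e hd h
    cases a with
    | s => simp at h
    | t => simp at h
    | h => simp at h
    | l =>
      obtain ⟨h1, h2⟩ := dst_l_some h
      have := ih _ _ h1 h2
      simp; omega
    | r =>
      cases d with
      | zero => simp at h
      | succ d =>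
        rw [dst_rs] at h
        have := ih _ _ (by omega) h
        simp; omega
    | o b => rw [dst_o] at h; have := ih _ _ hd h; simp; omega
    | c b => rw [dst_c] at h; have := ih _ _ hd h; simp; omega

/-! ### the language -/

/-- a block of the prefix is at most twice as long as the block before it -/
def G1 : Set (List G) :=
  {w | ∃ (α β : List G) (a b : ℕ), b ≤ 2 * a ∧
    w = α ++ (List.replicate a G.s ++ G.t :: (List.replicate b G.s ++ G.t :: β))}

/-- the brackets are nested deeper than the number of blocks of the prefix -/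
def G2 : Set (List G) :=
  {w | ∃ w0 u v : List G, (∀ a ∈ w0, a = G.s ∨ a = G.t) ∧
    u.count G.r + w0.count G.t + 1 ≤ u.count G.l ∧ w = w0 ++ G.h :: (u ++ v)}

/-- nested palindromes with a prefix -/
def G3 : Set (List G) :=
  {w | ∃ w0 y : List G, (∀ a ∈ w0, a = G.s ∨ a = G.t) ∧ Q y ∧ w = w0 ++ G.h :: y}

/-- the language -/
def LL : Language G := {w | w ∈ G1 ∨ w ∈ G2 ∨ w ∈ G3}

/-! ### slices -/

/-- good prefixes -/
def gd : Option ℕ → ℕ → List G → Prop
  | _, _, [] => True
  | p, n, G.s :: w => gd p (n + 1) w
  | none, n, G.t :: w => gd (some n) 0 w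
  | some a, n, G.t :: w => 2 * a < n ∧ gd (some n) 0 w
  | _, _, _ :: w => gd none 0 w

theorem gd_rep (m : ℕ) (w : List G) : ∀ p n, gd p n (List.replicate m G.s ++ w) ↔
    gd p (n + m) w := by
  induction m with
  | zero => intro p n; simp
  | succ m ih =>
    intro p n
    rw [List.replicate_succ, List.cons_append]
    simp only [gd]
    rw [ih]
    have : n + 1 + m = n + (m + 1) := by omega
    rw [this]

theorem gd_t_some {p : Option ℕ} {n : ℕ} {w : List G} (h : gd p n (G.t :: w)) :
    gd (some n) 0 w := by
  cases p with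
  | none => exact h
  | some a => exact h.2

theorem gd_cons {p : Option ℕ} {n : ℕ} {a : G} {w : List G} (h : gd p n (a :: w)) :
    ∃ p' n', gd p' n' w := by
  cases a with
  | s => exact ⟨_, _, h⟩
  | t => exact ⟨_, _, gd_t_some h⟩
  | h => exact ⟨none, 0, by cases p <;> exact h⟩
  | l => exact ⟨none, 0, by cases p <;> exact h⟩
  | r => exact ⟨none, 0, by cases p <;> exact h⟩
  | o b => exact ⟨none, 0, by cases p <;> exact h⟩
  | c b => exact ⟨none, 0, by cases p <;> exact h⟩

theorem gd_factor (α β : List G) (a b : ℕ) : ∀ p n,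
    gd p n (α ++ (List.replicate a G.s ++ G.t :: (List.replicate b G.s ++ G.t :: β))) →
    2 * a < b := by
  induction α with
  | nil =>
    intro p n h
    rw [List.nil_append, gd_rep] at h
    have h1 := gd_t_some h
    rw [gd_rep] at h1
    have := h1.1
    omega
  | cons x α ih =>
    intro p n h
    obtain ⟨p', n', h'⟩ := gd_cons h
    exact ih p' n' h'

theorem gd_not_G1 {w : List G} {p : Option ℕ} {n : ℕ} (h : gd p n w) : w ∉ G1 := by
  rintro ⟨α, β, a, b, hab, rfl⟩
  have := gd_factor α β a b p n h
  omega

/-- words without `s` and `t` are good -/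
theorem gd_free (w : List G) (hw : ∀ a ∈ w, a ≠ G.s ∧ a ≠ G.t) : ∀ p n, gd p n w := by
  induction w with
  | nil => intro p n; cases p <;> trivial
  | cons a w ih =>
    intro p n
    have h1 := hw a (by simp)
    have h2 := ih (fun b hb => hw b (by simp [hb]))
    cases a with
    | s => exact absurd rfl h1.1
    | t => exact absurd rfl h1.2
    | h => cases p <;> exact h2 _ _
    | l => cases p <;> exact h2 _ _
    | r => cases p <;> exact h2 _ _
    | o b => cases p <;> exact h2 _ _
    | c b => cases p <;> exact h2 _ _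

/-- `k` blocks, the first one of length `m` -/
def pre : ℕ → ℕ → List G
  | 0, _ => []
  | k + 1, m => List.replicate m G.s ++ G.t :: pre k (2 * m + 1)

theorem pre_mem (k : ℕ) : ∀ m, ∀ a ∈ pre k m, a = G.s ∨ a = G.t := by
  induction k with
  | zero => intro m a ha; simp [pre] at ha
  | succ k ih =>
    intro m a ha
    rw [pre, List.mem_append] at ha
    rcases ha with h | h
    · exact Or.inl (List.eq_of_mem_replicate h)
    · rcases List.mem_cons.1 h with h | h
      · exact Or.inr h
      · exact ih _ a h

theorem pre_count (k : ℕ) : ∀ m, (pre k m).count G.t = k := by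
  induction k with
  | zero => intro m; rfl
  | succ k ih =>
    intro m
    rw [pre, List.count_append, List.count_cons_self, ih, List.count_replicate]
    simp

theorem gd_pre (z : List G) (hz : ∀ p, gd p 0 z) (k : ℕ) : ∀ m p,
    (∀ a, p = some a → 2 * a < m) → gd p 0 (pre k m ++ z) := by
  induction k with
  | zero => intro m p _; exact hz p
  | succ k ih =>
    intro m p hp
    rw [pre, List.append_assoc, gd_rep, List.cons_append, Nat.zero_add]
    have h1 := ih (2 * m + 1) (some m) (by rintro a ha; obtain rfl := Option.some.inj ha; omega)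
    cases p with
    | none => exact h1
    | some a => exact ⟨hp a rfl, h1⟩

/-- words accepted by the bracket counter have no `s`, `t`, `h` -/
theorem dst_free {k : ℕ} (w : List G) : ∀ d e, dst k d w = some e →
    ∀ a ∈ w, a ≠ G.s ∧ a ≠ G.t ∧ a ≠ G.h := by
  induction w with
  | nil => intro d e _ a ha; simp at ha
  | cons x w ih =>
    intro d e h a ha
    rw [dst_cons] at h
    cases hx : stp k d x with
    | none => rw [hx] at h; simp at h
    | some d' =>
      rw [hx] at h
      rcases List.mem_cons.1 ha with rfl | ha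
      · refine ⟨?_, ?_, ?_⟩ <;> rintro rfl <;> simp [stp] at hx
      · exact ih d' e h a ha

theorem split_h {w0 w0' y y' : List G} (h0 : ∀ a ∈ w0, a = G.s ∨ a = G.t)
    (h0' : ∀ a ∈ w0', a = G.s ∨ a = G.t) (h : w0 ++ G.h :: y = w0' ++ G.h :: y') :
    w0 = w0' ∧ y = y' := by
  induction w0 generalizing w0' with
  | nil =>
    cases w0' with
    | nil => simpa using h
    | cons a w0' =>
      have h1 := h0' a (by simp)
      simp only [List.nil_append, List.cons_append, List.cons.injEq] at h
      rw [← h.1] at h1
      rcases h1 with h1 | h1 <;> cases h1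
  | cons b w0 ih =>
    cases w0' with
    | nil =>
      have h1 := h0 b (by simp)
      simp only [List.nil_append, List.cons_append, List.cons.injEq] at h
      rw [h.1] at h1
      rcases h1 with h1 | h1 <;> cases h1
    | cons a w0' =>
      simp only [List.cons_append, List.cons.injEq] at h
      obtain ⟨h1, h2⟩ := ih (fun a ha => h0 a (by simp [ha])) (fun a ha => h0' a (by simp [ha])) h.2
      exact ⟨by rw [h.1, h1], h2⟩

theorem slice (k : ℕ) (v : List G) :
    ((pre k 0 ++ G.h :: v) ∈ LL ∧ dst k 0 v = some 0) ↔ P k v := by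
  constructor
  · rintro ⟨h | h | h, hd⟩
    · exfalso
      refine gd_not_G1 (p := none) (n := 0) ?_ h
      apply gd_pre
      · intro p
        have h1 : gd none 0 v := gd_free v (fun a ha => ⟨(dst_free v _ _ hd a ha).1,
          (dst_free v _ _ hd a ha).2.1⟩) _ _
        cases p <;> exact h1
      · intro a ha; cases ha
    · exfalso
      obtain ⟨w0, u, v', h0, hc, he⟩ := h
      obtain ⟨rfl, rfl⟩ := split_h (pre_mem k 0) h0 he
      rw [pre_count] at hc
      obtain ⟨d', h1, -⟩ := dst_append_some hd
      have := dst_count u 0 d' (by omega) h1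
      omega
    · obtain ⟨w0, y, h0, hq, he⟩ := h
      obtain ⟨rfl, rfl⟩ := split_h (pre_mem k 0) h0 he
      simpa using Q_dst hq k 0 0 (by omega) hd
  · intro h
    exact ⟨Or.inr (Or.inr ⟨_, _, pre_mem k 0, Q_of_P h, rfl⟩), P_dst h k 0 (by omega)⟩

/-! ### the slices are in the cone -/

/-- delete a fixed word -/
def del : List G → Tr G G
  | [] => { σ := Unit, fin := inferInstance, step := fun _ _ _ _ => False,
            start := fun _ => True, acc := fun _ => True }
  | a :: w => TrOps.cat (TrOps.one a none) (del w)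

theorem del_rel (w : List G) : ∀ u v, (del w).rel u v ↔ u = w ∧ v = [] := by
  induction w with
  | nil =>
    intro u v
    constructor
    · rintro ⟨p, q, -, -, h⟩
      cases h with
      | nil p => exact ⟨rfl, rfl⟩
      | cons hs _ => exact hs.elim
    · rintro ⟨rfl, rfl⟩
      exact ⟨(), (), trivial, trivial, Tr.Run.nil _⟩
  | cons a w ih =>
    intro u v
    rw [del, TrOps.cat_rel]
    constructor
    · rintro ⟨u1, u2, v1, v2, h1, h2, rfl, rfl⟩
      rw [TrOps.one_rel] at h1
      rw [ih] at h2
      obtain ⟨rfl, rfl⟩ := h1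
      obtain ⟨rfl, rfl⟩ := h2
      simp
    · rintro ⟨rfl, rfl⟩
      exact ⟨[a], w, [], [], (TrOps.one_rel _ _ _ _).2 ⟨rfl, rfl⟩, (ih _ _).2 ⟨rfl, rfl⟩,
        rfl, rfl⟩

/-- the identity on the words accepted by the bracket counter -/
def dTr (k : ℕ) : Tr G G where
  σ := Fin (k + 1)
  fin := inferInstance
  step := fun p x y q => ∃ a, x = some a ∧ y = some a ∧ stp k p a = some (q : ℕ)
  start := fun p => (p : ℕ) = 0
  acc := fun p => (p : ℕ) = 0

theorem stp_le {k d e : ℕ} {a : G} (hd : d ≤ k) (h : stp k d a = some e) : e ≤ k := by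
  cases a with
  | s => simp [stp] at h
  | t => simp [stp] at h
  | h => simp [stp] at h
  | l =>
    by_cases hk : d + 1 ≤ k
    · simp [stp, hk] at h; omega
    · simp [stp, hk] at h
  | r =>
    cases d with
    | zero => simp [stp] at h
    | succ d => simp [stp] at h; omega
  | o b => simp [stp] at h; omega
  | c b => simp [stp] at h; omega

theorem dTr_rel (k : ℕ) (u v : List G) : (dTr k).rel u v ↔ u = v ∧ dst k 0 u = some 0 := by
  constructor
  · rintro ⟨p, q, hp, hq, h⟩
    have key : ∀ {p q : (dTr k).σ} {u v : List G}, (dTr k).Run p u v q →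
        u = v ∧ dst k (p : Fin (k + 1)).val u = some (q : Fin (k + 1)).val := by
      intro p q u v h
      induction h with
      | nil p => exact ⟨rfl, rfl⟩
      | cons hs _ ih =>
        obtain ⟨a, rfl, rfl, ha⟩ := hs
        refine ⟨by simp [ih.1], ?_⟩
        rw [Option.toList_some, List.cons_append, List.nil_append, dst_cons, ha]
        exact ih.2
    obtain ⟨h1, h2⟩ := key h
    have hp' : (p : Fin (k + 1)).val = 0 := hp
    have hq' : (q : Fin (k + 1)).val = 0 := hq
    rw [hp', hq'] at h2
    exact ⟨h1, h2⟩
  · rintro ⟨rfl, h⟩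
    have key : ∀ (u : List G) (p : Fin (k + 1)) (e : ℕ), dst k p.val u = some e →
        ∃ q : Fin (k + 1), q.val = e ∧ (dTr k).Run p u u q := by
      intro u
      induction u with
      | nil => intro p e he; exact ⟨p, by simpa using he, Tr.Run.nil _⟩
      | cons a u ih =>
        intro p e he
        rw [dst_cons] at he
        cases ha : stp k p.val a with
        | none => rw [ha] at he; simp at he
        | some d =>
          rw [ha] at he
          have hd : d < k + 1 := by
            have := stp_le (by omega) ha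
            omega
          obtain ⟨q, hq, hr⟩ := ih ⟨d, hd⟩ e he
          refine ⟨q, hq, ?_⟩
          have := Tr.Run.cons (T := dTr k) (p := p) (q := (⟨d, hd⟩ : Fin (k + 1)))
            (x := some a) (y := some a) ⟨a, rfl, rfl, ha⟩ hr
          simpa using this
    obtain ⟨q, hq, hr⟩ := key u ⟨0, by omega⟩ 0 h
    exact ⟨⟨0, by omega⟩, q, rfl, hq, hr⟩

/-- the language of level `k` -/
def PL (k : ℕ) : Language G := {w | P k w}

theorem inCone_PL (k : ℕ) : InCone LL (PL k) := by
  apply InCone_of_tr LL (TrOps.cat (del (pre k 0 ++ [G.h])) (dTr k))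
  intro v
  rw [show v ∈ PL k ↔ P k v from Iff.rfl, ← slice]
  constructor
  · rintro ⟨h1, h2⟩
    refine ⟨_, h1, (TrOps.cat_rel _ _ _ _).2 ⟨pre k 0 ++ [G.h], v, [], v, ?_, ?_, by simp, rfl⟩⟩
    · exact (del_rel _ _ _).2 ⟨rfl, rfl⟩
    · exact (dTr_rel _ _ _).2 ⟨rfl, h2⟩
  · rintro ⟨u, hu, hr⟩
    obtain ⟨u1, u2, v1, v2, h1, h2, rfl, rfl⟩ := (TrOps.cat_rel _ _ _ _).1 hr
    obtain ⟨rfl, rfl⟩ := (del_rel _ _ _).1 h1
    obtain ⟨rfl, h3⟩ := (dTr_rel _ _ _).1 h2
    refine ⟨?_, h3⟩
    simpa using hu

end Pool.Agent.TH734.Nst
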