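import Pool.Agent.TH734.NestIdx

set_option autoImplicit false

/-!
# Binary trees: a context-free language outside the cone
-/

namespace Pool.Agent.TH734.Nst

open Pool.Agent.Helper288.Cone

/-- four letters -/
inductive A4 | a | b | c | d
  deriving DecidableEq

instance : Fintype A4 := ⟨{A4.a, A4.b, A4.c, A4.d}, by intro x; cases x <;> simp⟩

/-- words coding binary trees -/
inductive Et : List A4 → Prop
  | leaf : Et [A4.d]
  | node {u v : List A4} : Et u → Et v → Et (A4.a :: (u ++ A4.b :: (v ++ [A4.c])))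

/-- the language of the words coding binary trees -/
def ET : Language A4 := {w | Et w}

/-- one step of the automaton measuring the depth -/
def D (n : ℕ) (s : Fin (n + 1) × Bool) (x : A4) (s' : Fin (n + 1) × Bool) : Prop :=
  match x with
  | A4.a => s.2 = false ∧ s'.2 = false ∧ (s'.1 : ℕ) = s.1 + 1
  | A4.b => s.2 = true ∧ s'.2 = false ∧ s'.1 = s.1
  | A4.c => s.2 = true ∧ s'.2 = true ∧ (s'.1 : ℕ) + 1 = s.1
  | A4.d => s.2 = false ∧ s'.2 = true ∧ s'.1 = s.1 ∧ (s.1 : ℕ) = n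

/-- runs of the automaton measuring the depth -/
def DR (n : ℕ) : Fin (n + 1) × Bool → List A4 → Fin (n + 1) × Bool → Prop
  | s, [], s' => s' = s
  | s, x :: w, s' => ∃ s1, D n s x s1 ∧ DR n s1 w s'

theorem DR_append (n : ℕ) (u v : List A4) : ∀ s s',
    DR n s (u ++ v) s' ↔ ∃ s1, DR n s u s1 ∧ DR n s1 v s' := by
  induction u with
  | nil =>
    intro s s'
    constructor
    · intro h; exact ⟨s, rfl, h⟩
    · rintro ⟨s1, h1, h2⟩
      have h1' : s1 = s := h1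
      subst h1'
      exact h2
  | cons x u ih =>
    intro s s'
    constructor
    · rintro ⟨s1, h1, h2⟩
      obtain ⟨s2, h3, h4⟩ := (ih _ _).1 h2
      exact ⟨s2, ⟨s1, h1, h3⟩, h4⟩
    · rintro ⟨s2, ⟨s1, h1, h3⟩, h4⟩
      exact ⟨s1, h1, (ih _ _).2 ⟨s2, h3, h4⟩⟩

theorem Et_lower (n : ℕ) {w : List A4} (h : Et w) : ∀ s s', DR n s w s' → s.2 = false →
    s'.1 = s.1 ∧ s'.2 = true ∧ 2 ^ (n - (s.1 : ℕ)) ≤ w.length := by
  induction h with
  | leaf =>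
    rintro s s' ⟨s1, h1, h2⟩ _
    have h2' : s' = s1 := h2
    subst h2'
    obtain ⟨_, g2, g3, g4⟩ := h1
    refine ⟨g3, g2, ?_⟩
    rw [g4]; simp
  | @node u v _ _ ihu ihv =>
    rintro s s' ⟨s1, h1, h2⟩ _
    obtain ⟨s2, h3, h4⟩ := (DR_append n u _ _ _).1 h2
    obtain ⟨s3, h5, h6⟩ := h4
    obtain ⟨s4, h7, h8⟩ := (DR_append n v _ _ _).1 h6
    obtain ⟨s5, h9, h10⟩ := h8
    have h10' : s' = s5 := h10
    subst h10'
    obtain ⟨_, g2, g3⟩ := h1
    obtain ⟨g4, g5, g6⟩ := ihu _ _ h3 g2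
    obtain ⟨_, g7, g8⟩ := h5
    obtain ⟨g9, g10, g11⟩ := ihv _ _ h7 g7
    obtain ⟨_, g12, g13⟩ := h9
    have e1 : (s4.1 : ℕ) = s1.1 := by rw [g9, g8, g4]
    refine ⟨?_, g12, ?_⟩
    · apply Fin.ext; omega
    · have e3 : (s3.1 : ℕ) = s1.1 := by rw [g8, g4]
      rw [e3] at g11
      have e4 : n - (s.1 : ℕ) = (n - (s1.1 : ℕ)) + 1 := by
        have := s1.1.2
        omega
      rw [e4, pow_succ]
      simp only [List.length_cons, List.length_append, List.length_nil]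
      omega

/-- the complete tree -/
def full : ℕ → List A4
  | 0 => [A4.d]
  | k + 1 => A4.a :: (full k ++ A4.b :: (full k ++ [A4.c]))

theorem full_Et (k : ℕ) : Et (full k) := by
  induction k with
  | zero => exact Et.leaf
  | succ k ih => exact Et.node ih ih

theorem full_DR (n : ℕ) : ∀ (k : ℕ) (i : Fin (n + 1)), (i : ℕ) + k = n →
    DR n (i, false) (full k) (i, true) := by
  intro k
  induction k with
  | zero =>
    intro i hi
    exact ⟨(i, true), ⟨rfl, rfl, rfl, by simpa using hi⟩, rfl⟩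
  | succ k ih =>
    intro i hi
    have hj : (i : ℕ) + 1 < n + 1 := by omega
    have h1 := ih ⟨i + 1, hj⟩ (by simp; omega)
    refine ⟨(⟨i + 1, hj⟩, false), ⟨rfl, rfl, rfl⟩, ?_⟩
    refine (DR_append n _ _ _ _).2 ⟨_, h1, (⟨i + 1, hj⟩, false), ⟨rfl, rfl, rfl⟩, ?_⟩
    exact (DR_append n _ _ _ _).2 ⟨_, h1, (i, true), ⟨rfl, rfl, rfl⟩, rfl⟩

/-! ### the product graph -/

section

variable (T : Tr G A4) (n : ℕ)

/-- the edges of the product -/
def PE (p : T.σ × (Fin (n + 1) × Bool)) (x : Option G) (q : T.σ × (Fin (n + 1) × Bool)) : Prop :=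
  ∃ y : Option A4, T.step p.1 x y q.1 ∧ ((y = none ∧ q.2 = p.2) ∨ ∃ b, y = some b ∧ D n p.2 b q.2)

theorem PE_of_run {p q : T.σ} {u : List G} {v : List A4} (h : T.Run p u v q) :
    ∀ s s', DR n s v s' → ∃ es, Ok (PE T n) (p, s) es ∧ endv (p, s) es = (q, s') ∧ lab es = u := by
  induction h with
  | nil p =>
    intro s s' h
    have h' : s' = s := h
    subst h'
    exact ⟨[], trivial, rfl, rfl⟩
  | @cons p q r x y u v hs _ ih =>
    intro s s' h
    cases y with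
    | none =>
      obtain ⟨es, h1, h2, h3⟩ := ih s s' (by simpa using h)
      refine ⟨(x, (q, s)) :: es, ⟨⟨none, hs, Or.inl ⟨rfl, rfl⟩⟩, h1⟩, h2, ?_⟩
      rw [lab_cons, h3]
    | some b =>
      have h' : DR n s (b :: v) s' := by simpa using h
      obtain ⟨s1, h4, h5⟩ := h'
      obtain ⟨es, h1, h2, h3⟩ := ih s1 s' h5
      refine ⟨(x, (q, s1)) :: es, ⟨⟨some b, hs, Or.inr ⟨b, rfl, h4⟩⟩, h1⟩, h2, ?_⟩
      rw [lab_cons, h3]

theorem run_of_PE (es : List (Option G × (T.σ × (Fin (n + 1) × Bool)))) :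
    ∀ p : T.σ × (Fin (n + 1) × Bool), Ok (PE T n) p es → ∃ v, T.Run p.1 (lab es) v (endv p es).1 ∧
      DR n p.2 v (endv p es).2 ∧ v.length ≤ es.length := by
  induction es with
  | nil => intro p _; exact ⟨[], Tr.Run.nil _, rfl, le_rfl⟩
  | cons e es ih =>
    rintro p ⟨⟨y, h1, h2⟩, h3⟩
    obtain ⟨v, h4, h5, h6⟩ := ih e.2 h3
    rcases h2 with ⟨rfl, h2⟩ | ⟨b, rfl, h2⟩
    · refine ⟨v, ?_, ?_, ?_⟩
      · have := Tr.Run.cons h1 h4
        simpa [lab_cons, endv] using this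
      · rw [h2] at h5; exact h5
      · simp only [List.length_cons]; omega
    · refine ⟨b :: v, ?_, ⟨e.2.2, h2, h5⟩, ?_⟩
      · have := Tr.Run.cons h1 h4
        simpa [lab_cons, endv] using this
      · simp only [List.length_cons]; omega

end

theorem bound_of_tr (T : Tr G A4) [Fintype T.σ]
    (hT : ∀ v, v ∈ ET ↔ ∃ u, u ∈ LL ∧ T.rel u v) (n : ℕ) :
    2 ^ n ≤ B (Fintype.card T.σ * ((n + 1) * 2)) := by
  obtain ⟨u, hu, p, q, hp, hq, hr⟩ := (hT (full n)).1 (full_Et n)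
  obtain ⟨es, h1, h2, h3⟩ := PE_of_run T n hr (⟨0, by omega⟩, false) (⟨0, by omega⟩, true)
    (full_DR n n ⟨0, by omega⟩ (by simp))
  obtain ⟨es', g1, g2, g3, g4⟩ := LL_short (PE T n) h1 (h3 ▸ hu)
  obtain ⟨v, k1, k2, k3⟩ := run_of_PE T n es' _ g1
  rw [g2, h2] at k1 k2
  have hv : v ∈ ET := (hT v).2 ⟨_, g3, p, q, hp, hq, k1⟩
  have := (Et_lower n hv _ _ k2 rfl).2.2
  have hc : Fintype.card (T.σ × (Fin (n + 1) × Bool)) = Fintype.card T.σ * ((n + 1) * 2) := by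
    simp [Fintype.card_prod]
  rw [hc] at g4
  simp only [Nat.sub_zero] at this
  omega

/-! ### arithmetic -/

theorem F_le (N : ℕ) (hN : 1 ≤ N) : ∀ k, F N k ≤ (8 * N ^ 3) ^ (k + 1) := by
  intro k
  have h3 : 1 ≤ N ^ 3 := Nat.one_le_pow _ _ hN
  have h1 : N ≤ N ^ 3 := by nlinarith [Nat.one_le_pow 2 N hN]
  have h2 : N ^ 2 * (4 * N) = 4 * N ^ 3 := by ring
  induction k with
  | zero =>
    simp only [F]
    rw [h2]
    simp only [zero_add, pow_one]
    omega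
  | succ k ih =>
    have e1 : F N (k + 1) = N + N ^ 2 * (4 * N) + N ^ 2 * F N k := by
      simp only [F]; ring
    rw [e1, h2]
    have h4 : 1 ≤ (8 * N ^ 3) ^ (k + 1) := Nat.one_le_pow _ _ (by omega)
    have h5 : N ^ 2 * F N k ≤ N ^ 3 * (8 * N ^ 3) ^ (k + 1) :=
      Nat.mul_le_mul (Nat.pow_le_pow_right hN (by omega)) ih
    have h6 : N ^ 3 * 1 ≤ N ^ 3 * (8 * N ^ 3) ^ (k + 1) := Nat.mul_le_mul_left _ h4
    have h7 : (8 * N ^ 3) ^ (k + 1 + 1) = 8 * (N ^ 3 * (8 * N ^ 3) ^ (k + 1)) := by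
      rw [pow_succ]; ring
    omega

theorem B_le (N l : ℕ) (h0 : 1 ≤ N) (hN : N ≤ 2 ^ l) : B N ≤ 2 ^ ((3 * l + 3) * (l + 3) + 2) := by
  have h1 : Nat.log 2 N ≤ l := by
    have := Nat.log_mono_right (b := 2) hN
    rwa [Nat.log_pow (by omega)] at this
  have h2 : F N (Nat.log 2 N + 2) ≤ F N (l + 2) := F_mono N (by omega)
  have h3 := F_le N h0 (l + 2)
  have h4 : 8 * N ^ 3 ≤ 2 ^ (3 * l + 3) := by
    have : N ^ 3 ≤ (2 ^ l) ^ 3 := Nat.pow_le_pow_left hN 3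
    rw [← pow_mul] at this
    rw [pow_add, mul_comm 3 l]
    omega
  have h5 : (8 * N ^ 3) ^ (l + 2 + 1) ≤ (2 ^ (3 * l + 3)) ^ (l + 3) := Nat.pow_le_pow_left h4 _
  rw [← pow_mul] at h5
  have h6 : 8 * N ^ 3 ≤ 2 ^ ((3 * l + 3) * (l + 3)) := by
    refine h4.trans (Nat.pow_le_pow_right (by omega) ?_)
    nlinarith
  have h7 : N ^ 2 ≤ N ^ 3 := Nat.pow_le_pow_right h0 (by omega)
  have h8 : N ≤ N ^ 3 := by
    calc N = N ^ 1 := (pow_one N).symm
      _ ≤ N ^ 3 := Nat.pow_le_pow_right h0 (by omega)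
  unfold B
  rw [pow_add]
  omega

theorem numeric (M : ℕ) (hM : 1 ≤ M) : ∃ n, B (M * ((n + 1) * 2)) < 2 ^ n := by
  have key : ∀ j : ℕ, 12 * (j + 12) ^ 2 < 2 ^ (j + 11) := by
    intro j
    induction j with
    | zero => norm_num
    | succ j ih =>
      have e1 : (2 : ℕ) ^ (j + 1 + 11) = 2 * 2 ^ (j + 11) := by ring
      have e2 : (j + 1 + 12) ^ 2 ≤ 2 * (j + 12) ^ 2 := by ring_nf; nlinarith [Nat.zero_le (j ^ 2)]
      rw [e1]
      linarith
  have h1 := key M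
  refine ⟨2 ^ (M + 11) - 1, ?_⟩
  have hp : 1 ≤ 2 ^ (M + 11) := Nat.one_le_pow _ _ (by omega)
  have e1 : 2 ^ (M + 11) - 1 + 1 = 2 ^ (M + 11) := by omega
  rw [e1]
  have hM2 : M ≤ 2 ^ M := Nat.lt_two_pow_self.le
  have hN : M * (2 ^ (M + 11) * 2) ≤ 2 ^ (2 * (M + 11)) := by
    calc M * (2 ^ (M + 11) * 2) ≤ 2 ^ M * (2 ^ (M + 11) * 2) := Nat.mul_le_mul_right _ hM2
      _ = 2 ^ (M + (M + 11) + 1) := by ring
      _ ≤ 2 ^ (2 * (M + 11)) := Nat.pow_le_pow_right (by omega) (by omega)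
  refine lt_of_le_of_lt (B_le _ _ ?_ hN) ?_
  · have : 1 * 1 ≤ M * (2 ^ (M + 11) * 2) := Nat.mul_le_mul hM (by omega)
    omega
  · apply Nat.pow_lt_pow_right (by omega)
    have e2 : (3 * (2 * (M + 11)) + 3) * (2 * (M + 11) + 3) + 2 = 12 * (M + 12) ^ 2 - 1 := by
      have : (3 * (2 * (M + 11)) + 3) * (2 * (M + 11) + 3) + 2 + 1 = 12 * (M + 12) ^ 2 := by ring
      omega
    omega

theorem not_inCone_ET : ¬ InCone LL ET := by
  intro h
  obtain ⟨T, hT⟩ := h.exists_tr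
  have := T.fin
  have hne : Nonempty T.σ := by
    obtain ⟨u, _, p, _⟩ := (hT (full 0)).1 (full_Et 0)
    exact ⟨p⟩
  obtain ⟨n, hn⟩ := numeric (Fintype.card T.σ) Fintype.card_pos
  have := bound_of_tr T hT n
  omega

end Pool.Agent.TH734.Nst
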