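import Pool.Agent.TH734.NestPath

set_option autoImplicit false

/-!
# Short paths labelled by words of the language
-/

namespace Pool.Agent.TH734.Nst

/-! ### the bound at a fixed level -/

/-- the length bound -/
def F (N : ℕ) : ℕ → ℕ
  | 0 => N + N ^ 2 * (4 * N)
  | k + 1 => N + N ^ 2 * (4 * N + F N k)

/-- the cost of one step -/
def C (N : ℕ) : ℕ → ℕ
  | 0 => 4 * N
  | k + 1 => 4 * N + F N k

theorem F_eq (N k : ℕ) : F N k = N + N ^ 2 * C N k := by
  cases k <;> rfl

theorem C_ge (N k : ℕ) : 4 * N ≤ C N k := by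
  cases k with
  | zero => exact le_rfl
  | succ k => simp [C]

theorem F_mono_succ (N : ℕ) : ∀ k, F N k ≤ F N (k + 1) := by
  intro k
  induction k with
  | zero =>
    simp only [F]
    have : 4 * N ≤ 4 * N + (N + N ^ 2 * (4 * N)) := by omega
    have := Nat.mul_le_mul_left (N ^ 2) this
    omega
  | succ k ih =>
    have e1 : F N (k + 1 + 1) = N + N ^ 2 * (4 * N + F N (k + 1)) := rfl
    have e2 : F N (k + 1) = N + N ^ 2 * (4 * N + F N k) := rfl
    have : 4 * N + F N k ≤ 4 * N + F N (k + 1) := by omega
    have := Nat.mul_le_mul_left (N ^ 2) this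
    rw [e1]
    conv_lhs => rw [e2]
    omega

theorem F_mono (N : ℕ) {j k : ℕ} (h : j ≤ k) : F N j ≤ F N k := by
  induction h with
  | refl => exact le_rfl
  | step _ ih => exact ih.trans (F_mono_succ N _)

section

variable {V : Type} (E : V → Option G → V → Prop) [Fintype V]

/-- one step of the chain -/
def R (k : ℕ) (x y : V × V) : Prop :=
  ∃ e1 e2 : List (Option G × V), Ok E y.1 e1 ∧ endv y.1 e1 = x.1 ∧ Ok E x.2 e2 ∧
    endv x.2 e2 = y.2 ∧ e1.length + e2.length ≤ C (Fintype.card V) k ∧
    ∀ w, P k w → P k (lab e1 ++ (w ++ lab e2))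

/-- what the induction yields -/
def Chn (k : ℕ) (p q : V) : Prop :=
  ∃ (p0 : V) (e0 : List (Option G × V)), Ok E p0 e0 ∧ lab e0 = [] ∧
    e0.length ≤ Fintype.card V ∧ Relation.ReflTransGen (R E k) (p0, endv p0 e0) (p, q)

theorem Chn_bound {k : ℕ} {p q : V} (h : Chn E k p q) :
    ∃ es, Ok E p es ∧ endv p es = q ∧ P k (lab es) ∧ es.length ≤ F (Fintype.card V) k := by
  obtain ⟨p0, e0, h1, h2, h3, h4⟩ := h
  obtain ⟨n, hn, f, f0, fn, hf⟩ := rtg_bound h4
  have key : ∀ i ≤ n, ∃ es, Ok E (f i).1 es ∧ endv (f i).1 es = (f i).2 ∧ P k (lab es) ∧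
      es.length ≤ Fintype.card V + i * C (Fintype.card V) k := by
    intro i
    induction i with
    | zero =>
      intro _
      rw [f0]
      exact ⟨e0, h1, rfl, by rw [h2]; exact P.nil, by omega⟩
    | succ i ih =>
      intro hi
      obtain ⟨es, g1, g2, g3, g4⟩ := ih (by omega)
      obtain ⟨e1, e2, g5, g6, g7, g8, g9, g10⟩ := hf i (by omega)
      refine ⟨e1 ++ (es ++ e2), ?_, ?_, ?_, ?_⟩
      · rw [Ok_append, Ok_append, g6, g2]; exact ⟨g5, g1, g7⟩
      · rw [endv_append, endv_append, g6, g2, g8]
      · rw [lab_append, lab_append]; exact g10 _ g3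
      · simp only [List.length_append]
        have : (i + 1) * C (Fintype.card V) k = i * C (Fintype.card V) k
          + C (Fintype.card V) k := by ring
        omega
  obtain ⟨es, g1, g2, g3, g4⟩ := key n le_rfl
  rw [fn] at g1 g2
  refine ⟨es, g1, g2, g3, ?_⟩
  rw [F_eq]
  have h5 : Fintype.card (V × V) = Fintype.card V ^ 2 := by
    rw [Fintype.card_prod]; ring
  rw [h5] at hn
  have := Nat.mul_le_mul_right (C (Fintype.card V) k) hn
  omega

theorem Chn_of_P {k : ℕ} {w : List G} (h : P k w) : ∀ (p : V) (es : List (Option G × V)),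
    Ok E p es → lab es = w → Chn E k p (endv p es) := by
  induction h with
  | nil =>
    intro p es h1 h2
    obtain ⟨es', h3, h4, h5, h6⟩ := short' E h1
    refine ⟨p, es', h3, ?_, h6.le, ?_⟩
    · exact List.sublist_nil.1 (h2 ▸ lab_sublist h5)
    · rw [h4]
  | @wrap k x w _ ih =>
    intro p es h1 h2
    obtain ⟨e1, e', rfl, h3, h4⟩ := split_lab es [G.o x] (w ++ [G.c x]) h2
    obtain ⟨e2, e3, rfl, h5, h6⟩ := split_lab e' w [G.c x] h4
    rw [Ok_append, Ok_append] at h1
    obtain ⟨g1, g2, g3⟩ := h1
    obtain ⟨p0, e0, c1, c2, c3, c4⟩ := ih _ e2 g2 h5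
    refine ⟨p0, e0, c1, c2, c3, c4.tail ?_⟩
    obtain ⟨a1, a2, a3, a4, a5⟩ := short_one E g1 h3
    obtain ⟨b1, b2, b3, b4, b5⟩ := short_one E g3 h6
    refine ⟨a1, b1, a2, a3, b2, ?_, ?_, ?_⟩
    · rw [endv_append, endv_append]; exact b3
    · have := C_ge (Fintype.card V) k
      omega
    · intro w' hw'
      rw [a4, b4]
      exact P.wrap x hw'
  | @left k u w _ _ ihu ihw =>
    intro p es h1 h2
    obtain ⟨e1, e', rfl, h3, h4⟩ := split_lab es [G.l] (u ++ G.r :: w) h2
    obtain ⟨e2, e'', rfl, h5, h6⟩ := split_lab e' u (G.r :: w) h4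
    obtain ⟨e3, e4, rfl, h7, h8⟩ := split_lab e'' [G.r] w h6
    rw [Ok_append, Ok_append, Ok_append] at h1
    obtain ⟨g1, g2, g3, g4⟩ := h1
    obtain ⟨d1, d2, d3, d4, d5⟩ := Chn_bound E (ihu _ e2 g2 h5)
    obtain ⟨p0, e0, c1, c2, c3, c4⟩ := ihw _ e4 g4 h8
    refine ⟨p0, e0, c1, c2, c3, c4.tail ?_⟩
    obtain ⟨a1, a2, a3, a4, a5⟩ := short_one E g1 h3
    obtain ⟨b1, b2, b3, b4, b5⟩ := short_one E g3 h7
    refine ⟨a1 ++ (d1 ++ b1), [], ?_, ?_, trivial, ?_, ?_, ?_⟩
    · rw [Ok_append, Ok_append]
      simp only []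
      rw [a3, d3]
      exact ⟨a2, d2, b2⟩
    · simp only []
      rw [endv_append, endv_append, a3, d3, b3]
    · simp only [endv_append, endv]
    · simp only [List.length_append, List.length_nil, C]
      omega
    · intro w' hw'
      rw [lab_append, lab_append, a4, b4]
      have := P.left d4 hw'
      simpa using this
  | @right k u w _ _ ihw ihu =>
    intro p es h1 h2
    obtain ⟨e4, e', rfl, h8, h4⟩ := split_lab es w (G.l :: (u ++ [G.r])) h2
    obtain ⟨e1, e'', rfl, h3, h6⟩ := split_lab e' [G.l] (u ++ [G.r]) h4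
    obtain ⟨e2, e3, rfl, h5, h7⟩ := split_lab e'' u [G.r] h6
    rw [Ok_append, Ok_append, Ok_append] at h1
    obtain ⟨g4, g1, g2, g3⟩ := h1
    obtain ⟨d1, d2, d3, d4, d5⟩ := Chn_bound E (ihu _ e2 g2 h5)
    obtain ⟨p0, e0, c1, c2, c3, c4⟩ := ihw _ e4 g4 h8
    refine ⟨p0, e0, c1, c2, c3, c4.tail ?_⟩
    obtain ⟨a1, a2, a3, a4, a5⟩ := short_one E g1 h3
    obtain ⟨b1, b2, b3, b4, b5⟩ := short_one E g3 h7
    refine ⟨[], a1 ++ (d1 ++ b1), trivial, rfl, ?_, ?_, ?_, ?_⟩
    · rw [Ok_append, Ok_append]
      simp only []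
      rw [a3, d3]
      exact ⟨a2, d2, b2⟩
    · simp only []
      rw [endv_append, endv_append, a3, d3, b3]
      simp only [endv_append]
    · simp only [List.length_append, List.length_nil, C]
      omega
    · intro w' hw'
      rw [lab_append, lab_append, a4, b4]
      have := P.right hw' d4
      simpa using this

theorem P_short {k : ℕ} {p : V} {es : List (Option G × V)} (h : Ok E p es) (hP : P k (lab es)) :
    ∃ es', Ok E p es' ∧ endv p es' = endv p es ∧ P k (lab es') ∧
      es'.length ≤ F (Fintype.card V) k :=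
  Chn_bound E (Chn_of_P E hP p es h rfl)

/-! ### letters and weights -/

omit [Fintype V] in
theorem lab_mem {es : List (Option G × V)} {e : Option G × V} (h : e ∈ es) {x : G}
    (hx : e.1 = some x) : x ∈ lab es := by
  rw [lab, List.mem_flatMap]
  exact ⟨e, h, by rw [hx]; simp⟩

omit [Fintype V] in
theorem mem_lab {es : List (Option G × V)} {x : G} (h : x ∈ lab es) :
    ∃ e ∈ es, e.1 = some x := by
  rw [lab, List.mem_flatMap] at h
  obtain ⟨e, he, hx⟩ := h
  exact ⟨e, he, by simpa using hx⟩

omit [Fintype V] in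
theorem lab_sub {es es' : List (Option G × V)} (h : ∀ e ∈ es', e ∈ es) :
    ∀ x ∈ lab es', x ∈ lab es := by
  intro x hx
  obtain ⟨e, he, h1⟩ := mem_lab hx
  exact lab_mem (h e he) h1

/-- the weight counting a letter -/
def ω1 (x : G) (y : Option G) : ℤ := if y = some x then 1 else 0

omit [Fintype V] in
theorem wt_ω1 (x : G) (es : List (Option G × V)) : wt (ω1 x) es = (lab es).count x := by
  induction es with
  | nil => rfl
  | cons e es ih =>
    rw [lab_cons, List.count_append]
    simp only [wt, List.map_cons, List.sum_cons] at ih ⊢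
    rw [ih]
    obtain ⟨y, q⟩ := e
    cases y with
    | none => simp [ω1]
    | some y =>
      by_cases hy : y = x
      · subst hy; simp [ω1]
      · simp [ω1, hy]

theorem ω1_nonneg (x : G) (y : Option G) : 0 ≤ ω1 x y := by
  unfold ω1; split <;> omega

theorem ω1_le (x : G) (y : Option G) : ω1 x y ≤ 1 := by
  unfold ω1; split <;> omega

/-- the weight of the brackets -/
def ω2 (y : Option G) : ℤ := if y = some G.l then 1 else if y = some G.r then -1 else 0

omit [Fintype V] in
theorem wt_ω2 (es : List (Option G × V)) :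
    wt ω2 es = ((lab es).count G.l : ℤ) - (lab es).count G.r := by
  induction es with
  | nil => rfl
  | cons e es ih =>
    rw [lab_cons, List.count_append, List.count_append]
    simp only [wt, List.map_cons, List.sum_cons] at ih ⊢
    rw [ih]
    obtain ⟨y, q⟩ := e
    cases y with
    | none => simp [ω2]
    | some y =>
      cases y <;> simp [ω2] <;> ring

theorem ω2_ge (y : Option G) : -1 ≤ ω2 y := by
  unfold ω2; split
  · omega
  · split <;> omega

/-! ### the three parts -/

theorem G1_short {p : V} {es : List (Option G × V)} (h : Ok E p es) (hG : lab es ∈ G1) :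
    ∃ es', Ok E p es' ∧ endv p es' = endv p es ∧ lab es' ∈ G1 ∧
      es'.length ≤ 3 * Fintype.card V ^ 2 + 9 * Fintype.card V := by
  obtain ⟨α, β, a, b, hab, he⟩ := hG
  obtain ⟨e1, e', rfl, h1, h2⟩ := split_lab es α _ he
  obtain ⟨e2, e'', rfl, h3, h4⟩ := split_lab e' _ _ h2
  obtain ⟨e3, e''', rfl, h5, h6⟩ := split_lab e'' [G.t] (List.replicate b G.s ++ G.t :: β) h4
  obtain ⟨e4, e'''', rfl, h7, h8⟩ := split_lab e''' _ _ h6
  obtain ⟨e5, e6, rfl, h9, h10⟩ := split_lab e'''' [G.t] β h8
  simp only [Ok_append] at h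
  obtain ⟨g1, g2, g3, g4, g5, g6⟩ := h
  obtain ⟨f1, i1, j1, k1, l1⟩ := short' E g1
  have w2 : wt (ω1 G.s) e2 = a := by rw [wt_ω1, h3]; simp
  obtain ⟨f2, i2, j2, k2, l2, m2⟩ := weight_short E (ω1 G.s)
    (fun x => by have := ω1_nonneg G.s x; omega) _ (min (a : ℤ) (Fintype.card V))
    (min_le_right _ _) e2.length e2 le_rfl g2 (by rw [w2]; exact min_le_left _ _)
  obtain ⟨f3, i3, j3, k3, l3⟩ := short_one E g3 h5
  obtain ⟨f4, i4, j4, k4, l4⟩ := short' E g4
  obtain ⟨f5, i5, j5, k5, l5⟩ := short_one E g5 h9
  obtain ⟨f6, i6, j6, k6, l6⟩ := short' E g6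
  -- labels
  have q2 : lab f2 = List.replicate (lab f2).length G.s := by
    rw [List.eq_replicate_iff]
    refine ⟨rfl, ?_⟩
    intro x hx
    have := lab_sub k2 x hx
    rw [h3] at this
    exact List.eq_of_mem_replicate this
  have q4 : lab f4 = List.replicate (lab f4).length G.s := by
    rw [List.eq_replicate_iff]
    refine ⟨rfl, ?_⟩
    intro x hx
    have := (lab_sublist k4).subset hx
    rw [h7] at this
    exact List.eq_of_mem_replicate this
  have c2 : wt (ω1 G.s) f2 = (lab f2).length := by
    rw [wt_ω1]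
    conv_lhs => rw [q2]
    simp
  rw [c2] at l2
  have c4 : (lab f4).length ≤ b := by
    have := (lab_sublist k4).length_le
    rw [h7] at this
    simpa using this
  have c4' : (lab f4).length ≤ f4.length := by
    have : ∀ es : List (Option G × V), (lab es).length ≤ es.length := by
      intro es
      induction es with
      | nil => simp
      | cons e es ih =>
        rw [lab_cons]
        obtain ⟨y, q⟩ := e
        cases y <;> simp <;> omega
    exact this _
  refine ⟨f1 ++ (f2 ++ (f3 ++ (f4 ++ (f5 ++ f6)))), ?_, ?_, ?_, ?_⟩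
  · simp only [Ok_append]
    rw [j1, j2, j3, j4, j5]
    exact ⟨i1, i2, i3, i4, i5, i6⟩
  · simp only [endv_append]
    rw [j1, j2, j3, j4, j5, j6]
  · refine ⟨lab f1, lab f6, (lab f2).length, (lab f4).length, ?_, ?_⟩
    · rcases le_total (a : ℤ) (Fintype.card V) with h0 | h0
      · rw [min_eq_left h0] at l2
        omega
      · rw [min_eq_right h0] at l2
        omega
    · simp only [lab_append, k3, k5]
      rw [← q2, ← q4]
      simp
  · simp only [List.length_append]
    omega

theorem G2_short {p : V} {es : List (Option G × V)} (h : Ok E p es) (hG : lab es ∈ G2) :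
    ∃ es', Ok E p es' ∧ endv p es' = endv p es ∧ lab es' ∈ G2 ∧
      es'.length ≤ 3 * Fintype.card V ^ 2 + 6 * Fintype.card V := by
  obtain ⟨w0, u, v, h0, hc, he⟩ := hG
  obtain ⟨e1, e', rfl, h1, h2⟩ := split_lab es w0 _ he
  obtain ⟨e2, e'', rfl, h3, h4⟩ := split_lab e' [G.h] (u ++ v) h2
  obtain ⟨e3, e4, rfl, h5, h6⟩ := split_lab e'' u v h4
  simp only [Ok_append] at h
  obtain ⟨g1, g2, g3, g4⟩ := h
  obtain ⟨f1, i1, j1, k1, l1⟩ := short' E g1
  obtain ⟨f2, i2, j2, k2, l2⟩ := short_one E g2 h3
  have w3 : wt ω2 e3 = (u.count G.l : ℤ) - u.count G.r := by rw [wt_ω2, h5]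
  have s1 := lab_sublist k1
  rw [h1] at s1
  have c1 := s1.count_le G.t
  have c1' : (lab f1).count G.t ≤ f1.length := by
    have : ∀ es : List (Option G × V), (lab es).length ≤ es.length := by
      intro es
      induction es with
      | nil => simp
      | cons e es ih =>
        rw [lab_cons]
        obtain ⟨y, q⟩ := e
        cases y <;> simp <;> omega
    exact List.count_le_length.trans (this _)
  obtain ⟨f3, i3, j3, k3, l3, m3⟩ := weight_short E ω2 ω2_ge _ (((lab f1).count G.t : ℤ) + 1)
    (by omega) e3.length e3 le_rfl g3 (by rw [w3]; omega)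
  obtain ⟨f4, i4, j4, k4, l4⟩ := short' E g4
  refine ⟨f1 ++ (f2 ++ (f3 ++ f4)), ?_, ?_, ?_, ?_⟩
  · simp only [Ok_append]
    rw [j1, j2, j3]
    exact ⟨i1, i2, i3, i4⟩
  · simp only [endv_append]
    rw [j1, j2, j3, j4]
  · refine ⟨lab f1, lab f3, lab f4, ?_, ?_, ?_⟩
    · intro a ha
      exact h0 a (s1.subset ha)
    · rw [wt_ω2] at l3
      omega
    · simp only [lab_append, k2]
      simp
  · simp only [List.length_append]
    omega

omit [Fintype V] in
theorem dst_of_prefix {y : List G} (h : Q y) : ∀ k d,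
    (∀ u v, y = u ++ v → d + u.count G.l ≤ u.count G.r + k) → dst k d y = some d := by
  induction h with
  | nil => intro k d _; rfl
  | @wrap x w _ ih =>
    intro k d h
    have h1 : dst k d w = some d := by
      apply ih
      intro u v hu
      have := h (G.o x :: u) (v ++ [G.c x]) (by rw [hu]; simp)
      simpa using this
    rw [dst_o, dst_append, h1]; rfl
  | @left u w _ _ ihu ihw =>
    intro k d h
    have h0 : d + 1 ≤ k := by
      have := h [G.l] (u ++ G.r :: w) rfl
      simpa using this
    have h1 : dst k (d + 1) u = some (d + 1) := by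
      apply ihu
      intro u1 v hu
      have := h (G.l :: u1) (v ++ G.r :: w) (by rw [hu]; simp)
      simp at this
      omega
    have h2 := (dst_count u (d + 1) (d + 1) h0 h1).2
    rw [dst_l k d _ h0, dst_append, h1]
    simp only [Option.bind_some, dst_rs]
    apply ihw
    intro u1 v hu
    have := h (G.l :: (u ++ G.r :: u1)) v (by rw [hu]; simp)
    simp at this
    omega
  | @right u w _ _ ihw ihu =>
    intro k d h
    have hd : d ≤ k := by
      have := h [] _ rfl
      simpa using this
    have h3 : dst k d w = some d := by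
      apply ihw
      intro u1 v hu
      exact h u1 (v ++ (G.l :: (u ++ [G.r]))) (by rw [hu]; simp)
    have h4 := (dst_count w d d hd h3).2
    have h0 : d + 1 ≤ k := by
      have := h (w ++ [G.l]) (u ++ [G.r]) (by simp)
      simp at this
      omega
    have h1 : dst k (d + 1) u = some (d + 1) := by
      apply ihu
      intro u1 v hu
      have := h (w ++ G.l :: u1) (v ++ [G.r]) (by rw [hu]; simp)
      simp at this
      omega
    rw [dst_append, h3]
    simp only [Option.bind_some]
    rw [dst_l k d _ h0, dst_append, h1]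
    simp only [Option.bind_some, dst_rs, dst_nil]

/-! ### blocks -/

omit [Fintype V] in
theorem first_block (w : List G) (hw : ∀ a ∈ w, a = G.s ∨ a = G.t) (hc : 1 ≤ w.count G.t) :
    ∃ b w', w = List.replicate b G.s ++ G.t :: w' := by
  induction w with
  | nil => simp at hc
  | cons a w ih =>
    rcases hw a (by simp) with rfl | rfl
    · obtain ⟨b, w', h⟩ := ih (fun b hb => hw b (by simp [hb])) (by simpa using hc)
      exact ⟨b + 1, w', by rw [h, List.replicate_succ]; rfl⟩
    · exact ⟨0, w, rfl⟩

omit [Fintype V] in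
theorem blocks : ∀ (k : ℕ) (w : List G) (a m : ℕ), (∀ x ∈ w, x = G.s ∨ x = G.t) →
    w.count G.t = k + 1 → m ≤ a → ∃ (α β : List G) (a' b' : ℕ),
      List.replicate a G.s ++ G.t :: w =
        α ++ (List.replicate a' G.s ++ G.t :: (List.replicate b' G.s ++ G.t :: β)) ∧
      (b' ≤ 2 * a' ∨ (m + 1) * 2 ^ k ≤ a' + 1) := by
  intro k
  induction k with
  | zero =>
    intro w a m hw hc hm
    obtain ⟨b, w', rfl⟩ := first_block w hw (by omega)
    exact ⟨[], w', a, b, by simp, Or.inr (by simpa using hm)⟩
  | succ k ih =>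
    intro w a m hw hc hm
    obtain ⟨b, w', rfl⟩ := first_block w hw (by omega)
    by_cases hb : b ≤ 2 * a
    · exact ⟨[], w', a, b, by simp, Or.inl hb⟩
    · obtain ⟨α, β, a', b', h1, h2⟩ := ih w' b (2 * m + 1)
        (fun x hx => hw x (by simp [hx]))
        (by
          rw [List.count_append, List.count_cons_self, List.count_replicate] at hc
          simpa using hc) (by omega)
      refine ⟨List.replicate a G.s ++ G.t :: α, β, a', b', ?_, ?_⟩
      · rw [h1]; simp
      · rcases h2 with h2 | h2
        · exact Or.inl h2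
        · refine Or.inr ?_
          have : (m + 1) * 2 ^ (k + 1) = (2 * m + 1 + 1) * 2 ^ k := by ring
          omega

/-- the bound -/
def B (N : ℕ) : ℕ := 3 * N ^ 2 + 9 * N + F N (Nat.log 2 N + 2)

theorem LL_short {p : V} {es : List (Option G × V)} (h : Ok E p es) (hG : lab es ∈ LL) :
    ∃ es', Ok E p es' ∧ endv p es' = endv p es ∧ lab es' ∈ LL ∧
      es'.length ≤ B (Fintype.card V) := by
  have c1 : lab es ∈ G1 → ∃ es', Ok E p es' ∧ endv p es' = endv p es ∧ lab es' ∈ LL ∧
      es'.length ≤ B (Fintype.card V) := by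
    intro h1
    obtain ⟨es', h2, h3, h4, h5⟩ := G1_short E h h1
    exact ⟨es', h2, h3, Or.inl h4, by unfold B; omega⟩
  have c2 : lab es ∈ G2 → ∃ es', Ok E p es' ∧ endv p es' = endv p es ∧ lab es' ∈ LL ∧
      es'.length ≤ B (Fintype.card V) := by
    intro h1
    obtain ⟨es', h2, h3, h4, h5⟩ := G2_short E h h1
    exact ⟨es', h2, h3, Or.inr (Or.inl h4), by unfold B; omega⟩
  rcases hG with h1 | h1 | h1
  · exact c1 h1
  · exact c2 h1
  · obtain ⟨w0, y, h0, hQ, he⟩ := h1
    by_cases hp : ∀ u v, y = u ++ v → u.count G.l ≤ u.count G.r + w0.count G.t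
    · have hd : dst (w0.count G.t) 0 y = some 0 := by
        apply dst_of_prefix hQ
        intro u v hu
        have := hp u v hu
        omega
      have hP : P (w0.count G.t) y := by simpa using Q_dst hQ _ 0 0 (by omega) hd
      by_cases hk : w0.count G.t ≤ Nat.log 2 (Fintype.card V) + 2
      · obtain ⟨e1, e', rfl, h2, h3⟩ := split_lab es w0 _ he
        obtain ⟨e2, e3, rfl, h4, h5⟩ := split_lab e' [G.h] y h3
        simp only [Ok_append] at h
        obtain ⟨g1, g2, g3⟩ := h
        obtain ⟨f1, i1, j1, k1, l1⟩ := short' E g1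
        obtain ⟨f2, i2, j2, k2, l2⟩ := short_one E g2 h4
        obtain ⟨f3, i3, j3, k3, l3⟩ := P_short E g3 (h5 ▸ hP)
        refine ⟨f1 ++ (f2 ++ f3), ?_, ?_, ?_, ?_⟩
        · simp only [Ok_append]
          rw [j1, j2]
          exact ⟨i1, i2, i3⟩
        · simp only [endv_append]
          rw [j1, j2, j3]
        · refine Or.inr (Or.inr ⟨lab f1, lab f3, ?_, Q_of_P k3, ?_⟩)
          · intro a ha
            have := (lab_sublist k1).subset ha
            rw [h2] at this
            exact h0 a this
          · simp only [lab_append, k2]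
            simp
        · have := F_mono (Fintype.card V) hk
          simp only [List.length_append]
          unfold B
          omega
      · -- the blocks of the prefix
        obtain ⟨a, w', hw'⟩ := first_block w0 h0 (by omega)
        have hc' : w'.count G.t = (w0.count G.t - 2) + 1 := by
          have : w0.count G.t = w'.count G.t + 1 := by
            rw [hw', List.count_append, List.count_cons_self, List.count_replicate]
            simp
          omega
        obtain ⟨α, β, a', b', h1, h2⟩ := blocks _ w' a 0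
          (fun x hx => h0 x (by rw [hw']; simp [hx])) hc' (Nat.zero_le _)
        rw [← hw'] at h1
        rcases h2 with h2 | h2
        · apply c1
          refine ⟨α, β ++ G.h :: y, a', b', h2, ?_⟩
          rw [he, h1]
          simp
        · -- pump
          have hN : Fintype.card V < 2 ^ (w0.count G.t - 2) := by
            have h3 := Nat.lt_pow_succ_log_self (b := 2) (by omega) (Fintype.card V)
            refine h3.trans_le (Nat.pow_le_pow_right (by omega) ?_)
            omega
          have haN : Fintype.card V ≤ a' := by omega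
          have he' : lab es = α ++ (List.replicate a' G.s ++ (G.t ::
              (List.replicate b' G.s ++ G.t :: (β ++ G.h :: y)))) := by
            rw [he, h1]; simp
          obtain ⟨e1, e', rfl, h3, h4⟩ := split_lab es _ _ he'
          obtain ⟨e2, e3, rfl, h5, h6⟩ := split_lab e' _ _ h4
          simp only [Ok_append] at h
          obtain ⟨g1, g2, g3⟩ := h
          have w2 : wt (ω1 G.s) e2 = a' := by rw [wt_ω1, h5]; simp
          obtain ⟨f2, i2, j2, k2, l2⟩ := weight_pump E (ω1 G.s) (ω1_nonneg _) (ω1_le _) _ b'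
            e2.length e2 le_rfl g2 (by rw [w2]; omega)
          have q2 : lab f2 = List.replicate (lab f2).length G.s := by
            rw [List.eq_replicate_iff]
            refine ⟨rfl, ?_⟩
            intro x hx
            have := lab_sub k2 x hx
            rw [h5] at this
            exact List.eq_of_mem_replicate this
          have c2 : wt (ω1 G.s) f2 = (lab f2).length := by
            rw [wt_ω1]
            conv_lhs => rw [q2]
            simp
          rw [c2] at l2
          have hok : Ok E p (e1 ++ (f2 ++ e3)) := by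
            simp only [Ok_append]
            rw [j2]
            exact ⟨g1, i2, g3⟩
          have hg : lab (e1 ++ (f2 ++ e3)) ∈ G1 := by
            refine ⟨α, β ++ G.h :: y, (lab f2).length, b', by omega, ?_⟩
            rw [lab_append, lab_append, h3, h6, ← q2]
          obtain ⟨es', m2, m3, m4, m5⟩ := G1_short E hok hg
          refine ⟨es', m2, ?_, Or.inl m4, by unfold B; omega⟩
          rw [m3]
          simp only [endv_append]
          rw [j2]
    · apply c2
      have hp' : ∃ u v, y = u ++ v ∧ u.count G.r + w0.count G.t < u.count G.l := by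
        by_contra hcon
        apply hp
        intro u v hu
        by_contra hlt
        exact hcon ⟨u, v, hu, by omega⟩
      obtain ⟨u, v, rfl, hlt⟩ := hp'
      exact ⟨w0, u, v, h0, by omega, he⟩

end

end Pool.Agent.TH734.Nst
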