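import Pool.Agent.TH734.NestSub

set_option autoImplicit false

/-!
# Linear languages are in the cone of the palindromes
-/

namespace Pool.Agent.TH734.Nst

open Pool.Agent.Helper288.Cone
open Pool.Agent.H643R2
open Pool.Agent.Helper336.CF

/-- The language `L` is linear: it is generated by a context-free grammar in which no right-hand
side contains two occurrences of nonterminals. -/
def IsLinear {X : Type} (L : Language X) : Prop :=
  ∃ g : ContextFreeGrammar X, g.language = L ∧
    ∀ r ∈ g.rules, ∀ (α β γ : List (Symbol X g.NT)) (A B : g.NT),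
      r.output ≠ α ++ Symbol.nonterminal A :: (β ++ Symbol.nonterminal B :: γ)

/-! ### palindromes -/

theorem P0_of (β : List Bool) : P 0 (β.map G.o ++ β.reverse.map G.c) := by
  induction β with
  | nil => exact P.nil
  | cons b β ih =>
    have := P.wrap b ih
    simpa using this

theorem P0_form {z : ℕ} {m : List G} (h : P z m) (hz : z = 0) :
    ∃ β : List Bool, m = β.map G.o ++ β.reverse.map G.c := by
  induction h with
  | nil => exact ⟨[], rfl⟩
  | @wrap z x w _ ih =>
    obtain ⟨β, rfl⟩ := ih hz
    exact ⟨x :: β, by simp⟩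
  | left _ _ _ _ => omega
  | right _ _ _ _ => omega

theorem split_oc {a a' b b' : List Bool} (h : a.map G.o ++ b.map G.c = a'.map G.o ++ b'.map G.c) :
    a = a' ∧ b = b' := by
  have ho : Function.Injective G.o := fun x y h => by cases h; rfl
  have hc : Function.Injective G.c := fun x y h => by cases h; rfl
  induction a generalizing a' with
  | nil =>
    cases a' with
    | nil => exact ⟨rfl, List.map_injective_iff.2 hc (by simpa using h)⟩
    | cons x a' =>
      cases b with
      | nil => simp at h
      | cons y b => simp at h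
  | cons x a ih =>
    cases a' with
    | nil =>
      cases b' with
      | nil => simp at h
      | cons y b' => simp at h
    | cons x' a' =>
      simp only [List.map_cons, List.cons_append, List.cons.injEq] at h
      obtain ⟨h1, h2⟩ := ih h.2
      exact ⟨by rw [ho h.1, h1], h2⟩

/-! ### shapes of right-hand sides -/

theorem all_terminal {X N : Type} (w : List (Symbol X N))
    (h : ∀ (α β : List (Symbol X N)) (A : N), w ≠ α ++ Symbol.nonterminal A :: β) :
    ∃ v : List X, w = v.map Symbol.terminal := by
  induction w with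
  | nil => exact ⟨[], rfl⟩
  | cons a w ih =>
    obtain ⟨v, hv⟩ := ih (fun α β A h' => h (a :: α) β A (by rw [h']; rfl))
    cases a with
    | terminal x => exact ⟨x :: v, by rw [hv]; rfl⟩
    | nonterminal A => exact absurd rfl (h [] w A)

theorem shape {X N : Type} (w : List (Symbol X N))
    (h : ∀ (α β γ : List (Symbol X N)) (A B : N),
      w ≠ α ++ Symbol.nonterminal A :: (β ++ Symbol.nonterminal B :: γ)) :
    ∃ (u : List X) (m : Option N) (v : List X), w = u.map Symbol.terminal ++
      (m.toList.map Symbol.nonterminal ++ v.map Symbol.terminal) := by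
  induction w with
  | nil => exact ⟨[], none, [], rfl⟩
  | cons a w ih =>
    cases a with
    | terminal x =>
      obtain ⟨u, m, v, hw⟩ := ih (fun α β γ A B h' => h (_ :: α) β γ A B (by rw [h']; rfl))
      exact ⟨x :: u, m, v, by rw [hw]; rfl⟩
    | nonterminal A =>
      obtain ⟨v, hv⟩ := all_terminal w (fun α β B h' => h [] α β A B (by rw [h']; rfl))
      exact ⟨[], some A, v, by rw [hv]; rfl⟩

section

variable {X : Type} (g : ContextFreeGrammar X) (lft rgt : {r // r ∈ g.rules} → List X)
  (mid : {r // r ∈ g.rules} → Option g.NT)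

/-- chains of rules -/
inductive Ch : g.NT → List {r // r ∈ g.rules} → Prop
  | one {r : {r // r ∈ g.rules}} : mid r = none → Ch r.1.input [r]
  | cons {r : {r // r ∈ g.rules}} {B : g.NT} {rs : List {r // r ∈ g.rules}} :
      mid r = some B → Ch B rs → Ch r.1.input (r :: rs)

/-- the word of a chain -/
def yld (rs : List {r // r ∈ g.rules}) : List X := rs.flatMap lft ++ rs.reverse.flatMap rgt

theorem yld_cons (r : {r // r ∈ g.rules}) (rs : List {r // r ∈ g.rules}) :
    yld g lft rgt (r :: rs) = lft r ++ (yld g lft rgt rs ++ rgt r) := by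
  simp [yld, List.flatMap_append]

theorem lin_language
    (hs : ∀ r : {r // r ∈ g.rules}, r.1.output = (lft r).map Symbol.terminal ++
      ((mid r).toList.map Symbol.nonterminal ++ (rgt r).map Symbol.terminal)) (w : List X) :
    w ∈ g.language ↔ ∃ rs, Ch g mid g.initial rs ∧ w = yld g lft rgt rs := by
  rw [language_eq g (fun A => {w | ∃ rs, Ch g mid A rs ∧ w = yld g lft rgt rs})]
  · rfl
  · intro r hr w hw
    rw [hs ⟨r, hr⟩, comp_append] at hw
    obtain ⟨w1, w', rfl, h1, h2⟩ := hw
    rw [comp_append] at h2
    obtain ⟨w2, w3, rfl, h2, h3⟩ := h2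
    rw [comp_map_terminal] at h1 h3
    subst h1 h3
    cases hm : mid ⟨r, hr⟩ with
    | none =>
      rw [hm] at h2
      have h2' : w2 = [] := h2
      subst h2'
      exact ⟨[⟨r, hr⟩], Ch.one hm, by simp [yld]⟩
    | some B =>
      rw [hm] at h2
      obtain ⟨w4, w5, rfl, ⟨rs, h4, rfl⟩, h5⟩ := h2
      have h5' : w5 = [] := h5
      subst h5'
      exact ⟨⟨r, hr⟩ :: rs, Ch.cons hm h4, by rw [yld_cons]; simp⟩
  · rintro w ⟨rs, h, rfl⟩
    generalize g.initial = A at h
    induction h with
    | @one r hm =>
      refine gen_of_rule g r.1 r.2 _ ?_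
      rw [hs r, hm, comp_append]
      refine ⟨lft r, rgt r, by simp [yld], (comp_map_terminal _ _ _).2 rfl, ?_⟩
      exact (comp_map_terminal _ _ _).2 rfl
    | @cons r B rs hm _ ih =>
      refine gen_of_rule g r.1 r.2 _ ?_
      rw [hs r, hm, comp_append]
      refine ⟨lft r, yld g lft rgt rs ++ rgt r, yld_cons g lft rgt r rs,
        (comp_map_terminal _ _ _).2 rfl, ?_⟩
      exact ⟨yld g lft rgt rs, rgt r, rfl, ih, (comp_map_terminal _ _ _).2 rfl⟩

/-- the automaton of the rule words -/
def chTr : Tr Unit ({r // r ∈ g.rules} ⊕ {r // r ∈ g.rules}) where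
  σ := Option (Option {r // r ∈ g.rules})
  fin := inferInstance
  step := fun p x y q => x = none ∧ match p, y, q with
    | none, some (Sum.inl r), some (some r') => r = r' ∧ r.1.input = g.initial
    | some (some r), some (Sum.inl r'), some (some r'') => r' = r'' ∧ mid r = some r'.1.input
    | some (some r), some (Sum.inr _), some none => mid r = none
    | some none, some (Sum.inr _), some none => True
    | _, _, _ => False
  start := fun p => p = none
  acc := fun p => p = some none ∨ ∃ r, p = some (some r) ∧ mid r = none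

/-- meaning of the states -/
def chSem (p : Option (Option {r // r ∈ g.rules}))
    (v : List ({r // r ∈ g.rules} ⊕ {r // r ∈ g.rules})) : Prop :=
  match p with
  | none => ∃ rs rs' : List {r // r ∈ g.rules}, Ch g mid g.initial rs ∧
      v = rs.map Sum.inl ++ rs'.map Sum.inr
  | some (some r) => (mid r = none ∧ ∃ rs' : List {r // r ∈ g.rules}, v = rs'.map Sum.inr) ∨
      ∃ (B : g.NT) (rs rs' : List {r // r ∈ g.rules}), mid r = some B ∧ Ch g mid B rs ∧
        v = rs.map Sum.inl ++ rs'.map Sum.inr
  | some none => ∃ rs' : List {r // r ∈ g.rules}, v = rs'.map Sum.inr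

theorem chSem_cons {r : {r // r ∈ g.rules}} {v : List ({r // r ∈ g.rules} ⊕ {r // r ∈ g.rules})}
    (h : chSem g mid (some (some r)) v) : ∃ rs rs' : List {r // r ∈ g.rules},
      Ch g mid r.1.input rs ∧ Sum.inl r :: v = rs.map Sum.inl ++ rs'.map Sum.inr := by
  rcases h with ⟨h1, rs', rfl⟩ | ⟨B, rs, rs', h1, h2, rfl⟩
  · exact ⟨[r], rs', Ch.one h1, rfl⟩
  · exact ⟨r :: rs, rs', Ch.cons h1 h2, rfl⟩

theorem chSem_of_run {p q : (chTr g mid).σ} {u : List Unit}
    {v : List ({r // r ∈ g.rules} ⊕ {r // r ∈ g.rules})} (h : (chTr g mid).Run p u v q)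
    (hq : (chTr g mid).acc q) (hq0 : q ≠ none) : chSem g mid p v := by
  induction h with
  | nil p =>
    rcases hq with rfl | ⟨r, rfl, hr⟩
    · exact ⟨[], rfl⟩
    · exact Or.inl ⟨hr, [], rfl⟩
  | @cons p1 p2 p3 x y u v hs _ ih =>
    have ih := ih hq hq0
    obtain ⟨rfl, hs⟩ := hs
    rcases p1 with _ | _ | r <;> rcases y with _ | r' | r' <;> rcases p2 with _ | _ | r''
    all_goals first
      | exact hs.elim
      | skip
    · obtain ⟨rfl, h1⟩ := hs
      have := chSem_cons g mid ih
      rw [h1] at this
      exact this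
    · obtain ⟨rs', rfl⟩ := ih
      exact ⟨r' :: rs', rfl⟩
    · obtain ⟨rfl, h1⟩ := hs
      obtain ⟨rs, rs', h2, h3⟩ := chSem_cons g mid ih
      exact Or.inr ⟨_, rs, rs', h1, h2, h3⟩
    · obtain ⟨rs', rfl⟩ := ih
      exact Or.inl ⟨hs, r' :: rs', rfl⟩

theorem run_inr (rs' : List {r // r ∈ g.rules}) :
    (chTr g mid).Run (some none) [] (rs'.map Sum.inr) (some none) := by
  induction rs' with
  | nil => exact Tr.Run.nil _
  | cons r rs' ih =>
    exact Tr.Run.cons (T := chTr g mid) (p := some none) (q := some none) (x := none)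
      (y := some (Sum.inr r)) ⟨rfl, trivial⟩ ih

theorem run_chain {A : g.NT} {rs : List {r // r ∈ g.rules}} (h : Ch g mid A rs) :
    ∀ (rs' : List {r // r ∈ g.rules}) (p : (chTr g mid).σ),
      (∀ r : {r // r ∈ g.rules}, r.1.input = A →
        (chTr g mid).step p none (some (Sum.inl r)) (some (some r))) →
      ∃ q, (chTr g mid).acc q ∧ (chTr g mid).Run p [] (rs.map Sum.inl ++ rs'.map Sum.inr) q := by
  induction h with
  | @one r hm =>
    intro rs' p hp
    cases rs' with
    | nil =>
      exact ⟨some (some r), Or.inr ⟨r, rfl, hm⟩, Tr.Run.cons (hp r rfl) (Tr.Run.nil _)⟩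
    | cons r' rs' =>
      refine ⟨some none, Or.inl rfl, Tr.Run.cons (hp r rfl) ?_⟩
      exact Tr.Run.cons (T := chTr g mid) (p := some (some r)) (q := some none) (x := none)
        (y := some (Sum.inr r')) ⟨rfl, hm⟩ (run_inr g mid rs')
  | @cons r B rs hm _ ih =>
    intro rs' p hp
    obtain ⟨q, hq, hr⟩ := ih rs' (some (some r)) (by
      intro r' hr'
      refine ⟨rfl, rfl, ?_⟩
      rw [hr']; exact hm)
    exact ⟨q, hq, Tr.Run.cons (hp r rfl) hr⟩

/-- the words of the rule words -/
def RR : Language ({r // r ∈ g.rules} ⊕ {r // r ∈ g.rules}) :=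
  {v | ∃ rs rs' : List {r // r ∈ g.rules}, Ch g mid g.initial rs ∧
    v = rs.map Sum.inl ++ rs'.map Sum.inr}

theorem RR_regular : (RR g mid).IsRegular := by
  have h := (chTr g mid).regular_range
  have e : ({v | ∃ u, (chTr g mid).rel u v} : Language _) = RR g mid := by
    ext v
    constructor
    · rintro ⟨u, p, q, hp, hq, hr⟩
      have hq0 : q ≠ none := by
        rcases hq with rfl | ⟨r, rfl, _⟩
        · exact Option.some_ne_none _
        · exact Option.some_ne_none _
      have := chSem_of_run g mid hr hq hq0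
      have hp' : p = none := hp
      rw [hp'] at this
      exact this
    · rintro ⟨rs, rs', h, rfl⟩
      obtain ⟨q, hq, hr⟩ := run_chain g mid h rs' none (by
        intro r hr
        exact ⟨rfl, rfl, hr⟩)
      exact ⟨[], none, q, rfl, hq, hr⟩
  rw [← e]; exact h

end

/-! ### codes -/

theorem flatMap_code {ρ : Type} {n : ℕ} (hn : 0 < n) (f : ρ → List Bool)
    (hl : ∀ r, (f r).length = n) (hf : Function.Injective f) :
    ∀ a b : List ρ, a.flatMap f = b.flatMap f → a = b := by
  intro a
  induction a with
  | nil =>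
    intro b h
    cases b with
    | nil => rfl
    | cons y b =>
      exfalso
      have := congrArg List.length h
      simp only [List.flatMap_nil, List.flatMap_cons, List.length_append, List.length_nil, hl] at this
      omega
  | cons x a ih =>
    intro b h
    cases b with
    | nil =>
      exfalso
      have := congrArg List.length h
      simp only [List.flatMap_nil, List.flatMap_cons, List.length_append, List.length_nil, hl] at this
      omega
    | cons y b =>
      rw [List.flatMap_cons, List.flatMap_cons] at h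
      obtain ⟨h1, h2⟩ := List.append_inj h (by rw [hl, hl])
      rw [hf h1, ih b h2]

theorem inCone_linear {X : Type} {L : Language X} (hL : IsLinear L) : InCone (PL 0) L := by
  obtain ⟨g, rfl, hg⟩ := hL
  choose lft mid rgt hs using fun r : {r // r ∈ g.rules} => shape r.1.output (hg r.1 r.2)
  obtain ⟨n, e⟩ : ∃ n, Nonempty ({r // r ∈ g.rules} ≃ Fin n) := Finite.exists_equiv_fin _
  obtain ⟨e⟩ := e
  let code : {r // r ∈ g.rules} → List Bool := fun r =>
    (List.finRange n).map (fun j => decide (j = e r))
  have hlen : ∀ r, (code r).length = n := by intro r; simp [code]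
  have hinj : Function.Injective code := by
    intro r r' h
    have h1 := List.map_inj_left.1 h (e r) (List.mem_finRange _)
    simp only [decide_true] at h1
    have h2 : e r = e r' := by simpa using h1.symm
    exact e.injective h2
  have hlen' : ∀ r, ((code r).reverse).length = n := by intro r; rw [List.length_reverse, hlen]
  have hinj' : Function.Injective (fun r => (code r).reverse) := by
    intro r r' h
    exact hinj (List.reverse_injective h)
  let hh : {r // r ∈ g.rules} ⊕ {r // r ∈ g.rules} → List G :=
    Sum.elim (fun r => (code r).map G.o) (fun r => (code r).reverse.map G.c)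
  let gg : {r // r ∈ g.rules} ⊕ {r // r ∈ g.rules} → List X := Sum.elim lft rgt
  have e1 : ∀ rs rs' : List {r // r ∈ g.rules}, (rs.map Sum.inl ++ rs'.map Sum.inr).flatMap hh =
      (rs.flatMap code).map G.o ++ (rs'.flatMap (fun r => (code r).reverse)).map G.c := by
    intro rs rs'
    rw [List.flatMap_append, List.flatMap_map, List.flatMap_map, List.map_flatMap, List.map_flatMap]
    rfl
  have e2 : ∀ rs rs' : List {r // r ∈ g.rules}, (rs.map Sum.inl ++ rs'.map Sum.inr).flatMap gg =
      rs.flatMap lft ++ rs'.flatMap rgt := by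
    intro rs rs'
    rw [List.flatMap_append, List.flatMap_map, List.flatMap_map]
    rfl
  have e3 : ∀ rs : List {r // r ∈ g.rules}, (rs.flatMap code).reverse =
      rs.reverse.flatMap (fun r => (code r).reverse) := by
    intro rs
    rw [List.reverse_flatMap]
    rfl
  refine ⟨_, inferInstance, hh, gg, RR g mid, RR_regular g mid, ?_⟩
  ext w
  rw [lin_language g lft rgt mid hs]
  constructor
  · rintro ⟨rs, h, rfl⟩
    refine ⟨rs.map Sum.inl ++ rs.reverse.map Sum.inr, ⟨rs, rs.reverse, h, rfl⟩, ?_, ?_⟩
    · rw [e1, ← e3]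
      exact P0_of _
    · rw [e2]; rfl
  · rintro ⟨z, ⟨rs, rs', h, rfl⟩, h1, rfl⟩
    rw [e1] at h1
    have h1' : P 0 _ := h1
    obtain ⟨β, hβ⟩ := P0_form h1' rfl
    obtain ⟨h2, h3⟩ := split_oc hβ
    rw [← h2, e3] at h3
    have hn : 0 < n := by
      generalize g.initial = A at h
      cases h with
      | @one r _ => exact lt_of_le_of_lt (Nat.zero_le _) (e r).2
      | @cons r _ _ _ _ => exact lt_of_le_of_lt (Nat.zero_le _) (e r).2
    have h4 := flatMap_code hn _ hlen' hinj' _ _ h3
    refine ⟨rs, h, ?_⟩
    rw [e2, h4]; rfl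

end Pool.Agent.TH734.Nst
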