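import Pool.Agent.TH734.Nest

set_option autoImplicit false

/-!
# Short paths in finite labelled graphs
-/

namespace Pool.Agent.TH734.Nst

section

variable {V : Type} (E : V → Option G → V → Prop)

/-- the last vertex of a path -/
def endv : V → List (Option G × V) → V
  | p, [] => p
  | _, e :: es => endv e.2 es

/-- being a path -/
def Ok : V → List (Option G × V) → Prop
  | _, [] => True
  | p, e :: es => E p e.1 e.2 ∧ Ok e.2 es

/-- the label of a path -/
def lab (es : List (Option G × V)) : List G := es.flatMap (fun e => e.1.toList)

@[simp] theorem lab_nil : lab ([] : List (Option G × V)) = [] := rfl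

theorem lab_cons (e : Option G × V) (es : List (Option G × V)) :
    lab (e :: es) = e.1.toList ++ lab es := rfl

theorem lab_append (a b : List (Option G × V)) : lab (a ++ b) = lab a ++ lab b := by
  simp [lab]

theorem endv_append (a b : List (Option G × V)) : ∀ p, endv p (a ++ b) = endv (endv p a) b := by
  induction a with
  | nil => intro p; rfl
  | cons e a ih => intro p; exact ih e.2

theorem Ok_append (a b : List (Option G × V)) : ∀ p,
    Ok E p (a ++ b) ↔ Ok E p a ∧ Ok E (endv p a) b := by
  induction a with
  | nil => intro p; simp [Ok, endv]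
  | cons e a ih =>
    intro p
    simp only [List.cons_append, Ok, endv, ih]
    tauto

theorem split_lab (es : List (Option G × V)) : ∀ u v, lab es = u ++ v →
    ∃ e1 e2, es = e1 ++ e2 ∧ lab e1 = u ∧ lab e2 = v := by
  induction es with
  | nil =>
    intro u v h
    have h' : u = [] ∧ v = [] := by simpa using h.symm
    obtain ⟨rfl, rfl⟩ := h'
    exact ⟨[], [], rfl, rfl, rfl⟩
  | cons e es ih =>
    intro u v h
    rw [lab_cons] at h
    obtain ⟨x, q⟩ := e
    cases x with
    | none =>
      obtain ⟨e1, e2, rfl, rfl, rfl⟩ := ih u v (by simpa using h)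
      exact ⟨(none, q) :: e1, e2, rfl, rfl, rfl⟩
    | some a =>
      cases u with
      | nil => exact ⟨[], _, rfl, rfl, by rw [lab_cons]; exact h⟩
      | cons b u =>
        simp only [Option.toList_some, List.cons_append, List.nil_append, List.cons.injEq] at h
        obtain ⟨rfl, h⟩ := h
        obtain ⟨e1, e2, rfl, rfl, rfl⟩ := ih u v h
        exact ⟨(some a, q) :: e1, e2, rfl, rfl, rfl⟩

theorem lab_sublist {a b : List (Option G × V)} (h : a.Sublist b) : (lab a).Sublist (lab b) := by
  induction h with
  | slnil => exact List.Sublist.refl _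
  | cons e _ ih => rw [lab_cons]; exact ih.trans (List.sublist_append_right _ _)
  | cons_cons e _ ih => rw [lab_cons, lab_cons]; exact List.Sublist.append (List.Sublist.refl _) ih

variable [Fintype V]

theorem loop_lemma (p : V) (es : List (Option G × V)) (h : Fintype.card V ≤ es.length) :
    ∃ a b c, es = a ++ (b ++ c) ∧ b ≠ [] ∧ endv p (a ++ b) = endv p a ∧
      (a ++ b).length ≤ Fintype.card V := by
  let f : Fin (Fintype.card V + 1) → V := fun i => endv p (es.take i)
  obtain ⟨i, j, hij, hf⟩ := Fintype.exists_ne_map_eq_of_card_lt f (by simp)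
  have key : ∀ i j : Fin (Fintype.card V + 1), i < j → f i = f j →
      ∃ a b c, es = a ++ (b ++ c) ∧ b ≠ [] ∧ endv p (a ++ b) = endv p a ∧
        (a ++ b).length ≤ Fintype.card V := by
    intro i j hij hf
    have h1 : (i : ℕ) < j := hij
    have h2 : (j : ℕ) ≤ Fintype.card V := by have := j.2; omega
    have e1 : es.take i ++ (es.drop i).take (j - i) = es.take j := by
      have := List.take_add (l := es) (i := (i : ℕ)) (j := (j : ℕ) - i)
      rw [← this]
      congr 1
      omega
    refine ⟨es.take i, (es.drop i).take (j - i), es.drop j, ?_, ?_, ?_, ?_⟩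
    · rw [← List.append_assoc, e1, List.take_append_drop]
    · intro h0
      have := congrArg List.length h0
      simp only [List.length_take, List.length_drop, List.length_nil] at this
      omega
    · rw [e1]; exact hf.symm
    · rw [e1, List.length_take]; omega
  rcases lt_or_gt_of_ne hij with h1 | h1
  · exact key i j h1 hf
  · exact key j i h1 hf.symm

theorem card_pos_of (p : V) : 0 < Fintype.card V := Fintype.card_pos_iff.2 ⟨p⟩

/-- removing loops -/
theorem short (p : V) : ∀ (n : ℕ) (es : List (Option G × V)), es.length ≤ n → Ok E p es →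
    ∃ es', Ok E p es' ∧ endv p es' = endv p es ∧ es'.Sublist es ∧ es'.length < Fintype.card V := by
  intro n
  induction n with
  | zero =>
    intro es hn hk
    have : es = [] := List.length_eq_zero_iff.1 (by omega)
    subst this
    exact ⟨[], hk, rfl, List.Sublist.refl _, card_pos_of p⟩
  | succ n ih =>
    intro es hn hk
    by_cases hc : es.length < Fintype.card V
    · exact ⟨es, hk, rfl, List.Sublist.refl _, hc⟩
    · obtain ⟨a, b, c, rfl, hb, he, _⟩ := loop_lemma p es (by omega)
      have hb' : 0 < b.length := List.length_pos_iff.2 hb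
      rw [← List.append_assoc, Ok_append, he] at hk
      obtain ⟨h1, h2⟩ := hk
      rw [Ok_append] at h1
      have h3 : Ok E p (a ++ c) := (Ok_append E a c p).2 ⟨h1.1, h2⟩
      have h4 : (a ++ c).length ≤ n := by
        simp only [List.length_append] at hn ⊢; omega
      obtain ⟨es', h5, h6, h7, h8⟩ := ih (a ++ c) h4 h3
      refine ⟨es', h5, ?_, h7.trans ?_, h8⟩
      · rw [h6, endv_append, ← List.append_assoc, endv_append (a ++ b), he]
      · exact List.Sublist.append (List.Sublist.refl _) (List.sublist_append_right _ _)

theorem short' {p : V} {es : List (Option G × V)} (h : Ok E p es) :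
    ∃ es', Ok E p es' ∧ endv p es' = endv p es ∧ es'.Sublist es ∧ es'.length < Fintype.card V :=
  short E p es.length es le_rfl h

/-- shortening a path labelled by one letter -/
theorem short_one {p : V} {es : List (Option G × V)} {x : G} (h : Ok E p es) (hl : lab es = [x]) :
    ∃ es', Ok E p es' ∧ endv p es' = endv p es ∧ lab es' = [x] ∧
      es'.length ≤ 2 * Fintype.card V := by
  induction es generalizing p with
  | nil => simp at hl
  | cons e es ih =>
    obtain ⟨y, q⟩ := e
    cases y with
    | none =>
      -- shorten the rest, then the whole of the silent part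
      have hl' : lab es = [x] := by simpa [lab_cons] using hl
      -- split at the letter
      clear ih
      have key : ∀ (es : List (Option G × V)), lab es = [x] →
          ∃ a q b, es = a ++ (some x, q) :: b ∧ lab a = [] ∧ lab b = [] := by
        intro es
        induction es with
        | nil => intro h; simp at h
        | cons e es ih =>
          intro h
          obtain ⟨y, q⟩ := e
          cases y with
          | none =>
            obtain ⟨a, q', b, rfl, h1, h2⟩ := ih (by simpa [lab_cons] using h)
            exact ⟨(none, q) :: a, q', b, rfl, by rw [lab_cons, h1]; rfl, h2⟩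
          | some y =>
            rw [lab_cons] at h
            simp only [Option.toList_some, List.cons_append, List.nil_append,
              List.cons.injEq] at h
            obtain ⟨rfl, h⟩ := h
            exact ⟨[], q, es, rfl, rfl, h⟩
      obtain ⟨a, q', b, he, h1, h2⟩ := key ((none, q) :: es) hl
      rw [he] at h ⊢
      rw [Ok_append] at h
      obtain ⟨h3, h4, h5⟩ := h
      obtain ⟨a', h6, h7, h8, h9⟩ := short' E h3
      obtain ⟨b', h10, h11, h12, h13⟩ := short' E h5
      refine ⟨a' ++ (some x, q') :: b', ?_, ?_, ?_, ?_⟩
      · rw [Ok_append, h7]; exact ⟨h6, h4, h10⟩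
      · rw [endv_append, endv_append]; exact h11
      · rw [lab_append, lab_cons]
        have e1 : lab a' = [] := List.sublist_nil.1 (h1 ▸ lab_sublist h8)
        have e2 : lab b' = [] := List.sublist_nil.1 (h2 ▸ lab_sublist h12)
        rw [e1, e2]; rfl
      · simp only [List.length_append, List.length_cons]; omega
    | some y =>
      have h0 : y = x ∧ lab es = [] := by
        rw [lab_cons] at hl; simpa using hl
      obtain ⟨rfl, h0⟩ := h0
      obtain ⟨h1, h2⟩ := h
      obtain ⟨b', h10, h11, h12, h13⟩ := short' E h2
      refine ⟨(some y, q) :: b', ⟨h1, h10⟩, h11, ?_, ?_⟩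
      · rw [lab_cons]
        have e2 : lab b' = [] := List.sublist_nil.1 (h0 ▸ lab_sublist h12)
        rw [e2]; rfl
      · simp only [List.length_cons]
        have := card_pos_of p
        omega

/-! ### weights -/

/-- weight of a path -/
def wt (ω : Option G → ℤ) (es : List (Option G × V)) : ℤ := (es.map (fun e => ω e.1)).sum

omit [Fintype V] in
theorem wt_append (ω : Option G → ℤ) (a b : List (Option G × V)) :
    wt ω (a ++ b) = wt ω a + wt ω b := by simp [wt]

omit [Fintype V] in
theorem wt_ge (ω : Option G → ℤ) (hω : ∀ x, -1 ≤ ω x) (a : List (Option G × V)) :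
    -(a.length : ℤ) ≤ wt ω a := by
  induction a with
  | nil => simp [wt]
  | cons e a ih =>
    have h1 := hω e.1
    simp only [wt, List.map_cons, List.sum_cons, List.length_cons] at ih ⊢
    push_cast
    omega

/-- repeat a loop -/
def repl (n : ℕ) (b : List (Option G × V)) : List (Option G × V) := (List.replicate n b).flatten

omit [Fintype V] in
theorem repl_succ (n : ℕ) (b : List (Option G × V)) : repl (n + 1) b = b ++ repl n b := by
  simp [repl, List.replicate_succ]

omit [Fintype V] in
theorem repl_props (p : V) (b : List (Option G × V)) (hb : Ok E p b) (he : endv p b = p) (n : ℕ) :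
    Ok E p (repl n b) ∧ endv p (repl n b) = p := by
  induction n with
  | zero => exact ⟨trivial, rfl⟩
  | succ n ih =>
    rw [repl_succ, Ok_append, endv_append, he]
    exact ⟨⟨hb, ih.1⟩, ih.2⟩

omit [Fintype V] in
theorem repl_wt (ω : Option G → ℤ) (b : List (Option G × V)) (n : ℕ) :
    wt ω (repl n b) = n * wt ω b := by
  induction n with
  | zero => simp [repl, wt]
  | succ n ih => rw [repl_succ, wt_append, ih]; push_cast; ring

omit [Fintype V] in
theorem repl_length (b : List (Option G × V)) (n : ℕ) :
    (repl n b).length = n * b.length := by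
  induction n with
  | zero => simp [repl]
  | succ n ih => rw [repl_succ, List.length_append, ih]; ring

omit [Fintype V] in
theorem repl_mem (b : List (Option G × V)) (n : ℕ) (e : Option G × V) (h : e ∈ repl n b) :
    e ∈ b := by
  simp only [repl, List.mem_flatten, List.mem_replicate] at h
  obtain ⟨l, ⟨_, rfl⟩, hl⟩ := h
  exact hl

/-- a path of weight at least `c` may be shortened -/
theorem weight_short (ω : Option G → ℤ) (hω : ∀ x, -1 ≤ ω x) (p : V) (c : ℤ)
    (hc : c ≤ Fintype.card V) : ∀ (n : ℕ) (es : List (Option G × V)), es.length ≤ n → Ok E p es →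
    c ≤ wt ω es → ∃ es', Ok E p es' ∧ endv p es' = endv p es ∧ (∀ e ∈ es', e ∈ es) ∧
      c ≤ wt ω es' ∧ es'.length ≤ 3 * Fintype.card V ^ 2 + 2 * Fintype.card V := by
  intro n
  induction n with
  | zero =>
    intro es hn hk hw
    exact ⟨es, hk, rfl, fun _ h => h, hw, by omega⟩
  | succ n ih =>
    intro es hn hk hw
    by_cases hcd : es.length < Fintype.card V
    · exact ⟨es, hk, rfl, fun _ h => h, hw, by nlinarith⟩
    · obtain ⟨a, b, d, rfl, hb, he, hlen⟩ := loop_lemma p es (by omega)
      have hb' : 0 < b.length := List.length_pos_iff.2 hb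
      have hk' := hk
      rw [← List.append_assoc, Ok_append, he] at hk
      obtain ⟨h1, h2⟩ := hk
      rw [Ok_append] at h1
      have heb : endv (endv p a) b = endv p a := by rw [← endv_append]; exact he
      have hend : endv p (a ++ (b ++ d)) = endv (endv p a) d := by
        rw [← List.append_assoc, endv_append (a ++ b), he]
      by_cases hwb : wt ω b ≤ 0
      · have h3 : Ok E p (a ++ d) := (Ok_append E a d p).2 ⟨h1.1, h2⟩
        have h4 : (a ++ d).length ≤ n := by
          simp only [List.length_append] at hn ⊢; omega
        have h5 : c ≤ wt ω (a ++ d) := by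
          rw [wt_append, wt_append] at hw; rw [wt_append]; omega
        obtain ⟨es', g1, g2, g3, g4, g5⟩ := ih (a ++ d) h4 h3 h5
        refine ⟨es', g1, ?_, ?_, g4, g5⟩
        · rw [g2, endv_append, hend]
        · intro e he'
          have := g3 e he'
          simp only [List.mem_append] at this ⊢
          tauto
      · obtain ⟨d', g1, g2, g3, g4⟩ := short' E h2
        obtain ⟨r1, r2⟩ := repl_props E (endv p a) b h1.2 heb (3 * Fintype.card V)
        refine ⟨a ++ (repl (3 * Fintype.card V) b ++ d'), ?_, ?_, ?_, ?_, ?_⟩
        · rw [Ok_append, Ok_append, r2]; exact ⟨h1.1, r1, g1⟩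
        · rw [endv_append, endv_append, r2, g2, hend]
        · intro e he'
          simp only [List.mem_append] at he' ⊢
          rcases he' with h | h | h
          · exact Or.inl h
          · exact Or.inr (Or.inl (repl_mem b _ e h))
          · exact Or.inr (Or.inr (g3.subset h))
        · rw [wt_append, wt_append, repl_wt]
          have w1 := wt_ge ω hω a
          have w2 := wt_ge ω hω d'
          have l1 : (a.length : ℤ) ≤ Fintype.card V := by
            simp only [List.length_append] at hlen
            omega
          have l2 : (d'.length : ℤ) ≤ Fintype.card V := by omega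
          have hwb' : 1 ≤ wt ω b := by omega
          have w3 : ((3 * Fintype.card V : ℕ) : ℤ) * 1 ≤ ((3 * Fintype.card V : ℕ) : ℤ) * wt ω b :=
            mul_le_mul_of_nonneg_left hwb' (by positivity)
          push_cast at w3 ⊢
          linarith
        · simp only [List.length_append, repl_length] at hlen ⊢
          have : b.length ≤ Fintype.card V := by omega
          have h9 : 3 * Fintype.card V * b.length ≤ 3 * Fintype.card V * Fintype.card V :=
            Nat.mul_le_mul_left _ this
          nlinarith

/-- pumping: with weights at least `0` and total weight at least the number of vertices the weight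
may be made arbitrarily large -/
theorem weight_pump (ω : Option G → ℤ) (h0 : ∀ x, 0 ≤ ω x) (h1 : ∀ x, ω x ≤ 1) (p : V) (c : ℕ) :
    ∀ (n : ℕ) (es : List (Option G × V)), es.length ≤ n → Ok E p es →
    (Fintype.card V : ℤ) ≤ wt ω es → ∃ es', Ok E p es' ∧ endv p es' = endv p es ∧
      (∀ e ∈ es', e ∈ es) ∧ (c : ℤ) ≤ wt ω es' := by
  have wnn : ∀ a : List (Option G × V), 0 ≤ wt ω a := by
    intro a
    apply List.sum_nonneg
    intro x hx
    obtain ⟨e, _, rfl⟩ := List.mem_map.1 hx
    exact h0 _
  have wle : ∀ a : List (Option G × V), wt ω a ≤ a.length := by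
    intro a
    induction a with
    | nil => simp [wt]
    | cons e a ih =>
      have := h1 e.1
      simp only [wt, List.map_cons, List.sum_cons, List.length_cons] at ih ⊢
      push_cast
      omega
  intro n
  induction n with
  | zero =>
    intro es hn hk hw
    have := wle es
    have := card_pos_of p
    omega
  | succ n ih =>
    intro es hn hk hw
    have hl := wle es
    obtain ⟨a, b, d, rfl, hb, he, hlen⟩ := loop_lemma p es (by omega)
    have hb' : 0 < b.length := List.length_pos_iff.2 hb
    rw [← List.append_assoc, Ok_append, he] at hk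
    obtain ⟨h2, h3⟩ := hk
    rw [Ok_append] at h2
    have heb : endv (endv p a) b = endv p a := by rw [← endv_append]; exact he
    have hend : endv p (a ++ (b ++ d)) = endv (endv p a) d := by
      rw [← List.append_assoc, endv_append (a ++ b), he]
    have hb0 := wnn b
    by_cases hwb : wt ω b = 0
    · have h4 : Ok E p (a ++ d) := (Ok_append E a d p).2 ⟨h2.1, h3⟩
      have h5 : (a ++ d).length ≤ n := by
        simp only [List.length_append] at hn ⊢; omega
      have h6 : (Fintype.card V : ℤ) ≤ wt ω (a ++ d) := by
        rw [wt_append, wt_append] at hw; rw [wt_append]; omega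
      obtain ⟨es', g1, g2, g3, g4⟩ := ih (a ++ d) h5 h4 h6
      refine ⟨es', g1, ?_, ?_, g4⟩
      · rw [g2, endv_append, hend]
      · intro e he'
        have := g3 e he'
        simp only [List.mem_append] at this ⊢
        tauto
    · obtain ⟨r1, r2⟩ := repl_props E (endv p a) b h2.2 heb c
      refine ⟨a ++ (repl c b ++ d), ?_, ?_, ?_, ?_⟩
      · rw [Ok_append, Ok_append, r2]; exact ⟨h2.1, r1, h3⟩
      · rw [endv_append, endv_append, r2, hend]
      · intro e he'
        simp only [List.mem_append] at he' ⊢
        rcases he' with h | h | h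
        · exact Or.inl h
        · exact Or.inr (Or.inl (repl_mem b _ e h))
        · exact Or.inr (Or.inr h)
      · rw [wt_append, wt_append, repl_wt]
        have w1 := wnn a
        have w2 := wnn d
        have hwb' : 1 ≤ wt ω b := by omega
        have w3 : (c : ℤ) * 1 ≤ (c : ℤ) * wt ω b :=
          mul_le_mul_of_nonneg_left hwb' (by positivity)
        linarith

end

/-! ### chains -/

theorem rtg_bound {α : Type} [Fintype α] {r : α → α → Prop} {a b : α}
    (h : Relation.ReflTransGen r a b) :
    ∃ n ≤ Fintype.card α, ∃ f : ℕ → α, f 0 = a ∧ f n = b ∧ ∀ i < n, r (f i) (f (i + 1)) := by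
  classical
  have h1 : ∃ n, ∃ f : ℕ → α, f 0 = a ∧ f n = b ∧ ∀ i < n, r (f i) (f (i + 1)) := by
    induction h with
    | refl => exact ⟨0, fun _ => a, rfl, rfl, fun i hi => absurd hi (by omega)⟩
    | @tail b c _ hbc ih =>
      obtain ⟨n, f, h2, h3, h4⟩ := ih
      refine ⟨n + 1, fun i => if i ≤ n then f i else c, by simp [h2], by simp, ?_⟩
      intro i hi
      by_cases hin : i < n
      · have e1 : i ≤ n := by omega
        have e2 : i + 1 ≤ n := by omega
        simp only [e1, e2, if_true]
        exact h4 i hin
      · have e1 : i = n := by omega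
        subst e1
        simp only [le_refl, if_true]
        have e2 : ¬ (i + 1 ≤ i) := by omega
        simp only [e2, if_false]
        rw [h3]; exact hbc
  obtain ⟨f, h2, h3, h4⟩ := Nat.find_spec h1
  refine ⟨Nat.find h1, ?_, f, h2, h3, h4⟩
  by_contra hlt
  rw [not_le] at hlt
  obtain ⟨i, j, hij, hf⟩ := Fintype.exists_ne_map_eq_of_card_lt
    (fun i : Fin (Nat.find h1) => f i) (by simpa using hlt)
  have key : ∀ i j : ℕ, i < j → j < Nat.find h1 → f i = f j → False := by
    intro i j hij hj hf
    have hlt : Nat.find h1 - (j - i) < Nat.find h1 := by omega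
    refine Nat.find_min h1 hlt ⟨fun m => if m ≤ i then f m else f (m + (j - i)), ?_, ?_, ?_⟩
    · simp [h2]
    · have e1 : ¬ (Nat.find h1 - (j - i) ≤ i) := by omega
      simp only [e1, if_false]
      have e2 : Nat.find h1 - (j - i) + (j - i) = Nat.find h1 := by omega
      rw [e2, h3]
    · intro m hm
      by_cases h5 : m + 1 ≤ i
      · have e1 : m ≤ i := by omega
        simp only [e1, h5, if_true]
        exact h4 m (by omega)
      · by_cases h6 : m ≤ i
        · have e1 : m = i := by omega
          subst e1
          simp only [le_refl, if_true, h5, if_false]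
          rw [hf]
          have e2 : m + 1 + (j - m) = j + 1 := by omega
          rw [e2]
          exact h4 j (by omega)
        · simp only [h5, h6, if_false]
          have e2 : m + 1 + (j - i) = (m + (j - i)) + 1 := by omega
          rw [e2]
          exact h4 _ (by omega)
  rcases lt_or_gt_of_ne hij with h5 | h5
  · exact key i j h5 j.2 hf
  · exact key j i h5 i.2 hf.symm

end Pool.Agent.TH734.Nst
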