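import Pool.Agent.TH734.NestLin

set_option autoImplicit false

/-!
# Quasi-rational languages are in the cones of the levels
-/

namespace Pool.Agent.TH734.Nst

open Pool.Agent.Helper288.Cone
open Pool.Agent.H643R2

/-- The family of quasi-rational languages over finite alphabets: the smallest family which
contains the linear languages and is closed under substitution. -/
inductive Qrt : ∀ (X : Type) [Fintype X], Language X → Prop
  | linear {X : Type} [Fintype X] {L : Language X} : IsLinear L → Qrt X L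
  | subst {X Y : Type} [Fintype X] [Fintype Y] {L : Language X} {τ : X → Language Y} :
      Qrt X L → (∀ x, Qrt Y (τ x)) → Qrt Y (substL L τ)

theorem PL_mono {k j : ℕ} (h : k ≤ j) {v : List G} (hv : P k v) : P j v := by
  induction h with
  | refl => exact hv
  | step _ ih => exact P_succ ih

theorem inCone_PL_le {k j : ℕ} (h : k ≤ j) : InCone (PL j) (PL k) := by
  apply InCone_of_tr (PL j) (dTr k)
  intro v
  constructor
  · intro hv
    exact ⟨v, PL_mono h hv, (dTr_rel k v v).2 ⟨rfl, P_dst hv k 0 (by omega)⟩⟩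
  · rintro ⟨u, hu, hr⟩
    obtain ⟨rfl, h1⟩ := (dTr_rel k u v).1 hr
    have hu' : P j u := hu
    have := Q_dst (Q_of_P hu') k 0 0 (by omega) h1
    exact this

/-- output one letter -/
def outTr {X : Type} (x : X) : Tr G X where
  σ := Bool
  fin := inferInstance
  step := fun p a b q => p = false ∧ q = true ∧ a = none ∧ b = some x
  start := fun p => p = false
  acc := fun p => p = true

theorem outTr_rel {X : Type} (x : X) (u : List G) (v : List X) :
    (outTr x).rel u v ↔ u = [] ∧ v = [x] := by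
  constructor
  · rintro ⟨p, q, hp, hq, h⟩
    have h1 : ∀ {p q : (outTr x).σ} {u : List G} {v : List X}, (outTr x).Run p u v q → p = true →
        u = [] ∧ v = [] := by
      intro p q u v h hp
      cases h with
      | nil p => exact ⟨rfl, rfl⟩
      | cons hs _ => rw [hs.1] at hp; exact absurd hp Bool.false_ne_true
    have hp' : p = false := hp
    have hq' : q = true := hq
    cases h with
    | nil p => rw [hp'] at hq'; exact absurd hq' Bool.false_ne_true
    | cons hs hr =>
      obtain ⟨_, h2, rfl, rfl⟩ := hs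
      obtain ⟨rfl, rfl⟩ := h1 hr h2
      simp
  · rintro ⟨rfl, rfl⟩
    refine ⟨false, true, rfl, rfl, ?_⟩
    exact Tr.Run.cons (T := outTr x) (p := false) (q := true) (x := none) (y := some x)
      ⟨rfl, rfl, rfl, rfl⟩ (Tr.Run.nil _)

theorem inCone_letter {X : Type} [Fintype X] (x : X) : InCone (PL 0) ({[x]} : Language X) := by
  apply InCone_of_tr (PL 0) (outTr x)
  intro v
  constructor
  · intro hv
    have hv' : v = [x] := hv
    exact ⟨[], P.nil, (outTr_rel x _ _).2 ⟨rfl, hv'⟩⟩
  · rintro ⟨u, _, hr⟩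
    exact ((outTr_rel x _ _).1 hr).2

theorem mem_prod_append {X Y : Type} (τ : X → Language Y) (u u' : List X) (v : List Y) :
    v ∈ ((u ++ u').map τ).prod ↔ ∃ v1 ∈ (u.map τ).prod, ∃ v2 ∈ (u'.map τ).prod, v1 ++ v2 = v := by
  rw [List.map_append, List.prod_append, Language.mem_mul]

theorem mem_prod_substL {X Y Z : Type} (σ : X → Language Y) (τ : Y → Language Z) (u : List X) :
    ∀ v : List Z, v ∈ (u.map (fun x => substL (σ x) τ)).prod ↔
      ∃ w ∈ (u.map σ).prod, v ∈ (w.map τ).prod := by
  induction u with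
  | nil =>
    intro v
    simp only [List.map_nil, List.prod_nil, Language.mem_one]
    constructor
    · rintro rfl
      exact ⟨[], rfl, by simp [Language.mem_one]⟩
    · rintro ⟨w, rfl, h⟩
      simpa [Language.mem_one] using h
  | cons x u ih =>
    intro v
    rw [mem_prod_map_cons]
    constructor
    · rintro ⟨v1, ⟨w1, h1, h2⟩, v2, h3, rfl⟩
      obtain ⟨w2, h4, h5⟩ := (ih v2).1 h3
      exact ⟨w1 ++ w2, (mem_prod_map_cons σ x u _).2 ⟨w1, h1, w2, h4, rfl⟩,
        (mem_prod_append τ w1 w2 _).2 ⟨v1, h2, v2, h5, rfl⟩⟩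
    · rintro ⟨w, h1, h2⟩
      obtain ⟨w1, h3, w2, h4, rfl⟩ := (mem_prod_map_cons σ x u _).1 h1
      obtain ⟨v1, h5, v2, h6, rfl⟩ := (mem_prod_append τ w1 w2 _).1 h2
      exact ⟨v1, ⟨w1, h3, h5⟩, v2, (ih v2).2 ⟨w2, h4, h6⟩, rfl⟩

theorem substL_substL {X Y Z : Type} (L : Language X) (σ : X → Language Y) (τ : Y → Language Z) :
    substL (substL L σ) τ = substL L (fun x => substL (σ x) τ) := by
  ext v
  constructor
  · rintro ⟨w, ⟨u, hu, hw⟩, hv⟩
    exact ⟨u, hu, (mem_prod_substL σ τ u v).2 ⟨w, hw, hv⟩⟩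
  · rintro ⟨u, hu, hv⟩
    obtain ⟨w, hw, hv⟩ := (mem_prod_substL σ τ u v).1 hv
    exact ⟨w, ⟨u, hu, hw⟩, hv⟩

theorem mem_prod_letters {X : Type} (u : List X) :
    ∀ v : List X, v ∈ (u.map (fun x => ({[x]} : Language X))).prod ↔ v = u := by
  induction u with
  | nil => intro v; simp [Language.mem_one]
  | cons x u ih =>
    intro v
    rw [mem_prod_map_cons]
    constructor
    · rintro ⟨v1, h1, v2, h2, rfl⟩
      have h1' : v1 = [x] := h1
      rw [(ih v2).1 h2, h1']; rfl
    · rintro rfl
      exact ⟨[x], rfl, u, (ih u).2 rfl, rfl⟩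

theorem substL_letters {X : Type} (L : Language X) :
    substL L (fun x => ({[x]} : Language X)) = L := by
  ext v
  constructor
  · rintro ⟨u, hu, hv⟩
    rw [(mem_prod_letters u v).1 hv]; exact hu
  · intro hv
    exact ⟨v, hv, (mem_prod_letters v v).2 rfl⟩

theorem Qrt_subst_level {X : Type} [Fintype X] {L : Language X} (h : Qrt X L) :
    ∀ (k : ℕ) (Y : Type) [Fintype Y] (τ : X → Language Y), (∀ x, InCone (PL k) (τ x)) →
      ∃ k', InCone (PL k') (substL L τ) := by
  induction h with
  | linear hL =>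
    intro k Y _ τ hτ
    exact ⟨k + 1, inCone_subst (inCone_linear hL) hτ⟩
  | @subst X Y _ _ L σ _ _ ihL ihσ =>
    intro k Z _ τ hτ
    choose f hf using fun x => ihσ x k Z τ hτ
    obtain ⟨K, hK⟩ : ∃ K, ∀ x, f x ≤ K := by
      refine ⟨Finset.univ.sup f, fun x => Finset.le_sup (Finset.mem_univ x)⟩
    have h1 : ∀ x, InCone (PL K) (substL (σ x) τ) :=
      fun x => (inCone_PL_le (hK x)).trans (hf x)
    rw [substL_substL]
    exact ihL K Z _ h1

theorem Qrt_level {X : Type} [Fintype X] {L : Language X} (h : Qrt X L) :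
    ∃ k, InCone (PL k) L := by
  obtain ⟨k, hk⟩ := Qrt_subst_level h 0 X _ (fun x => inCone_letter x)
  rw [substL_letters] at hk
  exact ⟨k, hk⟩

theorem inCone_of_Qrt {X : Type} [Fintype X] {L : Language X} (h : Qrt X L) : InCone LL L := by
  obtain ⟨k, hk⟩ := Qrt_level h
  exact (inCone_PL k).trans hk

end Pool.Agent.TH734.Nst
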