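import Pool.Agent.TH734.Nest

set_option autoImplicit false

/-!
# Substitution raises the level by one
-/

namespace Pool.Agent.TH734.Nst

open Pool.Agent.Helper288.Cone
open Pool.Agent.H643R2

/-- letters of the palindromes -/
def isoc : G → Prop
  | G.o _ => True
  | G.c _ => True
  | _ => False

/-- `Ins k u m bs`: the word `u` arises from `m` by inserting the bracketed words `bs` -/
inductive Ins (k : ℕ) : List G → List G → List (List G) → Prop
  | nil : Ins k [] [] []
  | main {a : G} {u m : List G} {bs : List (List G)} : isoc a → Ins k u m bs →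
      Ins k (a :: u) (a :: m) bs
  | slot {b u m : List G} {bs : List (List G)} : dst k 0 b = some 0 → Ins k u m bs →
      Ins k (G.l :: (b ++ G.r :: u)) m (b :: bs)

theorem Ins.append {k : ℕ} {u m u' m' : List G} {bs bs' : List (List G)} (h : Ins k u m bs)
    (h' : Ins k u' m' bs') : Ins k (u ++ u') (m ++ m') (bs ++ bs') := by
  induction h with
  | nil => exact h'
  | main ha _ ih => exact Ins.main ha ih
  | @slot b u m bs hb _ ih =>
    have e : (G.l :: (b ++ G.r :: u)) ++ u' = G.l :: (b ++ G.r :: (u ++ u')) := by simp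
    rw [e]
    exact Ins.slot hb ih

theorem Ins.split_cons {k : ℕ} {u m0 : List G} {bs : List (List G)} (h : Ins k u m0 bs) :
    ∀ {a : G} {m : List G}, m0 = a :: m → ∃ A u' bsA bs', u = A ++ a :: u' ∧ bs = bsA ++ bs' ∧
      Ins k A [] bsA ∧ Ins k u' m bs' := by
  induction h with
  | nil => intro a m h; cases h
  | @main x u m bs ha hu ih =>
    intro a m' h
    obtain ⟨rfl, rfl⟩ := List.cons.inj h
    exact ⟨[], u, [], bs, rfl, rfl, Ins.nil, hu⟩
  | @slot b u m bs hb hu ih =>
    intro a m' h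
    obtain ⟨A, u', bsA, bs', rfl, rfl, h1, h2⟩ := ih h
    exact ⟨G.l :: (b ++ G.r :: A), u', b :: bsA, bs', by simp, by simp, Ins.slot hb h1, h2⟩

theorem Ins.mem_isoc {k : ℕ} {u m : List G} {bs : List (List G)} (h : Ins k u m bs) :
    ∀ a ∈ m, isoc a := by
  induction h with
  | nil => intro a ha; simp at ha
  | main hx _ ih =>
    intro a ha
    rcases List.mem_cons.1 ha with rfl | ha
    · exact hx
    · exact ih a ha
  | slot _ _ ih => exact ih

theorem Ins.split_append {k : ℕ} {m1 m2 : List G} : ∀ {u : List G} {bs : List (List G)},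
    Ins k u (m1 ++ m2) bs → ∃ u1 u2 bs1 bs2, u = u1 ++ u2 ∧ bs = bs1 ++ bs2 ∧
      Ins k u1 m1 bs1 ∧ Ins k u2 m2 bs2 := by
  induction m1 with
  | nil => intro u bs h; exact ⟨[], u, [], bs, rfl, rfl, Ins.nil, h⟩
  | cons a m1 ih =>
    intro u bs h
    obtain ⟨A, u', bsA, bs', rfl, rfl, h1, h2⟩ := h.split_cons rfl
    obtain ⟨u1, u2, bs1, bs2, rfl, rfl, h3, h4⟩ := ih h2
    have ha : isoc a := h.mem_isoc a (by simp)
    refine ⟨A ++ a :: u1, u2, bsA ++ bs1, bs2, by simp, by simp, ?_, h4⟩
    have := h1.append (Ins.main ha h3)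
    simpa using this

theorem P_slots_left {k : ℕ} {A : List G} {bs : List (List G)} (h : Ins k A [] bs)
    (hb : ∀ b ∈ bs, P k b) {w : List G} (hw : P (k + 1) w) : P (k + 1) (A ++ w) := by
  generalize hm : ([] : List G) = m at h
  induction h with
  | nil => exact hw
  | main _ _ _ => cases hm
  | @slot b u m bs _ _ ih =>
    have h1 := ih (fun b hb' => hb b (by simp [hb'])) hm
    have := P.left (hb b (by simp)) h1
    simpa using this

theorem P_slots_right {k : ℕ} {A : List G} {bs : List (List G)} (h : Ins k A [] bs) :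
    (∀ b ∈ bs, P k b) → ∀ {w : List G}, P (k + 1) w → P (k + 1) (w ++ A) := by
  generalize hm : ([] : List G) = m at h
  induction h with
  | nil => intro _ w hw; simpa using hw
  | main _ _ _ => cases hm
  | @slot b u m bs _ _ ih =>
    intro hb w hw
    have h1 := P.right hw (hb b (by simp))
    have h2 := ih hm (fun b hb' => hb b (by simp [hb'])) h1
    simpa using h2

theorem P_of_Ins {k : ℕ} {m : List G} (hm : P 0 m) : ∀ {u : List G} {bs : List (List G)},
    Ins k u m bs → (∀ b ∈ bs, P k b) → P (k + 1) u := by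
  generalize hz : 0 = z at hm
  induction hm with
  | nil =>
    intro u bs h hb
    have := P_slots_left h hb (P.nil (k := k + 1))
    simpa using this
  | @wrap z x w _ ih =>
    intro u bs h hb
    obtain ⟨A, u', bsA, bs', rfl, rfl, h1, h2⟩ := h.split_cons rfl
    obtain ⟨u1, u2, bs1, bs2, rfl, rfl, h3, h4⟩ := h2.split_append
    obtain ⟨B, u3, bsB, bs3, rfl, rfl, h5, h6⟩ := h4.split_cons rfl
    have h7 : P (k + 1) (u1 ++ B) :=
      P_slots_right h5 (fun b hb' => hb b (by simp [hb'])) (ih hz h3 (fun b hb' => hb b (by simp [hb'])))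
    have h8 := P.wrap x h7
    have h9 := P_slots_left h1 (fun b hb' => hb b (by simp [hb'])) h8
    have h10 := P_slots_right h6 (fun b hb' => hb b (by simp [hb'])) h9
    simpa using h10
  | left _ _ _ _ => omega
  | right _ _ _ _ => omega

theorem P_exists_Ins {k j : ℕ} {u : List G} (h : P j u) (hj : j = k + 1) :
    ∃ m bs, Ins k u m bs ∧ P 0 m ∧ ∀ b ∈ bs, P k b := by
  induction h with
  | nil => exact ⟨[], [], Ins.nil, P.nil, by simp⟩
  | @wrap j x w _ ih =>
    obtain ⟨m, bs, h1, h2, h3⟩ := ih hj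
    refine ⟨G.o x :: (m ++ [G.c x]), bs, ?_, P.wrap x h2, h3⟩
    have := h1.append (Ins.main (a := G.c x) trivial Ins.nil)
    rw [List.append_nil] at this
    exact Ins.main (a := G.o x) trivial this
  | @left j u w hu _ _ ih =>
    obtain rfl : j = k := by omega
    obtain ⟨m, bs, h1, h2, h3⟩ := ih rfl
    refine ⟨m, u :: bs, Ins.slot (P_dst hu j 0 (by omega)) h1, h2, ?_⟩
    intro b hb
    rcases List.mem_cons.1 hb with rfl | hb
    · exact hu
    · exact h3 b hb
  | @right j u w _ hu ih _ =>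
    obtain rfl : j = k := by omega
    obtain ⟨m, bs, h1, h2, h3⟩ := ih rfl
    refine ⟨m, bs ++ [u], ?_, h2, ?_⟩
    · have := h1.append (Ins.slot (P_dst hu j 0 (by omega)) Ins.nil)
      simpa using this
    · intro b hb
      rcases List.mem_append.1 hb with hb | hb
      · exact h3 b hb
      · rw [List.mem_singleton] at hb; rw [hb]; exact hu

theorem dyck_unique {k : ℕ} {b b' u u' : List G} (hb : dst k 0 b = some 0)
    (hb' : dst k 0 b' = some 0) (h : b ++ G.r :: u = b' ++ G.r :: u') : b = b' ∧ u = u' := by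
  rcases List.append_eq_append_iff.1 h with ⟨z, rfl, hz⟩ | ⟨z, rfl, hz⟩
  · cases z with
    | nil => simpa using hz
    | cons x z =>
      simp only [List.cons_append, List.cons.injEq] at hz
      obtain ⟨rfl, rfl⟩ := hz
      rw [dst_append, hb] at hb'
      simp at hb'
  · cases z with
    | nil => simpa using hz.symm
    | cons x z =>
      simp only [List.cons_append, List.cons.injEq] at hz
      obtain ⟨rfl, rfl⟩ := hz
      rw [dst_append, hb'] at hb
      simp at hb

theorem Ins_unique {k : ℕ} {u m : List G} {bs : List (List G)} (h : Ins k u m bs) :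
    ∀ {m' : List G} {bs' : List (List G)}, Ins k u m' bs' → m = m' ∧ bs = bs' := by
  induction h with
  | nil =>
    intro m' bs' h'
    cases h'
    exact ⟨rfl, rfl⟩
  | @main a u m bs ha _ ih =>
    intro m' bs' h'
    cases h' with
    | main _ h2 => obtain ⟨rfl, rfl⟩ := ih h2; exact ⟨rfl, rfl⟩
    | slot _ _ => exact ha.elim
  | @slot b u m bs hb _ ih =>
    intro m' bs' h'
    generalize hw : G.l :: (b ++ G.r :: u) = w at h'
    cases h' with
    | nil => cases hw
    | main ha h2 =>
      obtain ⟨rfl, _⟩ := List.cons.inj hw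
      exact ha.elim
    | @slot b' u' m' bs' hb' h2 =>
      obtain ⟨_, h3⟩ := List.cons.inj hw
      obtain ⟨rfl, rfl⟩ := dyck_unique hb hb' h3
      obtain ⟨rfl, rfl⟩ := ih h2
      exact ⟨rfl, rfl⟩

/-! ### the transducer -/

section

variable {X Y : Type} [Fintype X] (k : ℕ) (T : Tr G X) (S : X → Tr G Y)

/-- states -/
inductive St (k : ℕ) (T : Tr G X) (S : X → Tr G Y)
  | main (p : T.σ)
  | pre (p : T.σ) (x : X)
  | slot (p : T.σ) (x : X) (s : (S x).σ) (d : Fin (k + 1))

/-- substitution of transducers -/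
noncomputable def subTr : Tr G Y where
  σ := St k T S
  fin := by
    classical
    haveI := T.fin
    haveI : ∀ x, Fintype (S x).σ := fun x => (S x).fin
    let f : (T.σ ⊕ (T.σ × X)) ⊕ (T.σ × (Σ x : X, (S x).σ) × Fin (k + 1)) → St k T S
      | Sum.inl (Sum.inl p) => St.main p
      | Sum.inl (Sum.inr (p, x)) => St.pre p x
      | Sum.inr (p, ⟨x, s⟩, d) => St.slot p x s d
    have hf : Function.Surjective f := by
      rintro (p | ⟨p, x⟩ | ⟨p, x, s, d⟩)
      · exact ⟨Sum.inl (Sum.inl p), rfl⟩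
      · exact ⟨Sum.inl (Sum.inr (p, x)), rfl⟩
      · exact ⟨Sum.inr (p, ⟨x, s⟩, d), rfl⟩
    haveI : DecidableEq (St k T S) := Classical.decEq _
    exact Fintype.ofSurjective f hf
  step := fun p a y q => match p, q with
    | St.main p, St.main q => y = none ∧ T.step p a none q ∧ ∀ b, a = some b → isoc b
    | St.main p, St.pre q x => y = none ∧ T.step p a (some x) q ∧ ∀ b, a = some b → isoc b
    | St.pre p x, St.slot q x' s d => p = q ∧ x = x' ∧ a = some G.l ∧ y = none ∧ (S x').start s ∧
        (d : ℕ) = 0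
    | St.slot p x s d, St.slot q x' s' d' => p = q ∧ (∃ e : x = x', (S x').step (e ▸ s) a y s') ∧
        ((a = none ∧ d' = d) ∨ (∃ b, a = some b ∧ stp k d b = some (d' : ℕ)))
    | St.slot p x s d, St.main q => p = q ∧ a = some G.r ∧ y = none ∧ (S x).acc s ∧ (d : ℕ) = 0
    | _, _ => False
  start := fun p => ∃ p', p = St.main p' ∧ T.start p'
  acc := fun p => ∃ p', p = St.main p' ∧ T.acc p'

/-- matching of the outputs, the inserted words and the final output -/
inductive Slots : List X → List (List G) → List Y → Prop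
  | nil : Slots [] [] []
  | cons {x : X} {xs : List X} {b : List G} {bs : List (List G)} {v v' : List Y} :
      dst k 0 b = some 0 → (S x).rel b v → Slots xs bs v' → Slots (x :: xs) (b :: bs) (v ++ v')

/-- reading inside a slot -/
theorem slot_run {p : T.σ} {x : X} {s s' : (S x).σ} {b : List G} {v : List Y}
    (h : (S x).Run s b v s') : ∀ (d d' : Fin (k + 1)), dst k d b = some (d' : ℕ) →
    (subTr k T S).Run (St.slot p x s d) b v (St.slot p x s' d') := by
  induction h with
  | nil s =>
    intro d d' h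
    have : d = d' := by
      apply Fin.ext
      simpa using h
    rw [this]
    exact Tr.Run.nil _
  | @cons s1 s2 s3 a y u v hs _ ih =>
    intro d d' h
    cases a with
    | none =>
      exact Tr.Run.cons (T := subTr k T S) (p := St.slot p x s1 d) (q := St.slot p x s2 d)
        (x := none) ⟨rfl, ⟨rfl, hs⟩, Or.inl ⟨rfl, rfl⟩⟩ (ih d d' h)
    | some a =>
      have h' : dst k d (a :: u) = some (d' : ℕ) := h
      rw [dst_cons] at h'
      cases ha : stp k (d : ℕ) a with
      | none => rw [ha] at h'; simp at h'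
      | some e =>
        rw [ha] at h'
        have he : e < k + 1 := by
          have := stp_le (by omega) ha
          omega
        exact Tr.Run.cons (T := subTr k T S) (p := St.slot p x s1 d)
          (q := St.slot p x s2 ⟨e, he⟩) (x := some a)
          ⟨rfl, ⟨rfl, hs⟩, Or.inr ⟨a, rfl, ha⟩⟩ (ih ⟨e, he⟩ d' h')

theorem sub_run_of {p q : T.σ} {m : List G} {xs : List X} (h : T.Run p m xs q) :
    (∀ a ∈ m, isoc a) → ∀ {bs : List (List G)} {v : List Y}, Slots k S xs bs v →
    ∃ u, Ins k u m bs ∧ (subTr k T S).Run (St.main p) u v (St.main q) := by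
  induction h with
  | nil p =>
    intro _ bs v hs
    cases hs
    exact ⟨[], Ins.nil, Tr.Run.nil _⟩
  | @cons p1 p2 p3 a y m xs hst _ ih =>
    intro hm bs v hs
    have ha : ∀ b, a = some b → isoc b := by
      rintro b rfl
      exact hm b (by simp)
    have hm' : ∀ a ∈ m, isoc a := fun b hb => hm b (by simp [hb])
    have hmain : ∀ {u m : List G} {bs : List (List G)}, Ins k u m bs →
        Ins k (a.toList ++ u) (a.toList ++ m) bs := by
      intro u m bs h
      cases a with
      | none => exact h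
      | some a => exact Ins.main (ha a rfl) h
    cases y with
    | none =>
      obtain ⟨u, h1, h2⟩ := ih hm' (by simpa using hs)
      refine ⟨a.toList ++ u, hmain h1, ?_⟩
      exact Tr.Run.cons (T := subTr k T S) (p := St.main p1) (q := St.main p2) (y := none)
        ⟨rfl, hst, ha⟩ h2
    | some x =>
      generalize hxs : (some x).toList ++ xs = xs' at hs
      cases hs with
      | nil => simp at hxs
      | @cons x' xs' b bs v v' hb hbv hrest =>
        have hxs' : x = x' ∧ xs = xs' := by simpa using hxs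
        obtain ⟨rfl, rfl⟩ := hxs'
        obtain ⟨u, h1, h2⟩ := ih hm' hrest
        obtain ⟨s, s', hs1, hs2, hr⟩ := hbv
        refine ⟨a.toList ++ (G.l :: (b ++ G.r :: u)), hmain (Ins.slot hb h1), ?_⟩
        have r1 := slot_run k T S (p := p2) hr ⟨0, by omega⟩ ⟨0, by omega⟩ hb
        have r2 := Tr.Run.cons (T := subTr k T S) (p := St.slot p2 x s' ⟨0, by omega⟩)
          (q := St.main p2) (x := some G.r) (y := none) ⟨rfl, rfl, rfl, hs2, rfl⟩ h2
        have r3 := Tr.Run.cons (T := subTr k T S) (p := St.pre p2 x)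
          (q := St.slot p2 x s ⟨0, by omega⟩) (x := some G.l) (y := none)
          ⟨rfl, rfl, rfl, rfl, hs1, rfl⟩ (r1.trans r2)
        have r4 := Tr.Run.cons (T := subTr k T S) (p := St.main p1)
          (q := St.pre p2 x) (x := a) (y := none) ⟨rfl, hst, ha⟩ r3
        simpa using r4

/-- meaning of a run ending in the main state `q` -/
def subSem (q : T.σ) (st : St k T S) (u : List G) (v : List Y) : Prop :=
  match st with
  | St.main p => ∃ m bs xs, Ins k u m bs ∧ T.Run p m xs q ∧ Slots k S xs bs v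
  | St.pre p x => ∃ b u' v1 v' m bs xs, u = G.l :: (b ++ G.r :: u') ∧ v = v1 ++ v' ∧
      dst k 0 b = some 0 ∧ (S x).rel b v1 ∧ Ins k u' m bs ∧ T.Run p m xs q ∧ Slots k S xs bs v'
  | St.slot p x s d => ∃ b u' v1 v' m bs xs, u = b ++ G.r :: u' ∧ v = v1 ++ v' ∧
      dst k d b = some 0 ∧ (∃ s', (S x).Run s b v1 s' ∧ (S x).acc s') ∧ Ins k u' m bs ∧
      T.Run p m xs q ∧ Slots k S xs bs v'

theorem subSem_of_run {q : T.σ} {st st' : (subTr k T S).σ} {u : List G} {v : List Y}
    (h : (subTr k T S).Run st u v st') (he : st' = St.main q) : subSem k T S q st u v := by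
  induction h with
  | nil st =>
    subst he
    exact ⟨[], [], [], Ins.nil, Tr.Run.nil _, Slots.nil⟩
  | @cons p1 p2 p3 a y u v hs _ ih =>
    have ih := ih he
    rcases p1 with p | ⟨p, x⟩ | ⟨p, x, s, d⟩ <;> rcases p2 with p' | ⟨p', x'⟩ | ⟨p', x', s', d'⟩
    · obtain ⟨rfl, h1, h2⟩ := hs
      obtain ⟨m, bs, xs, h3, h4, h5⟩ := ih
      refine ⟨a.toList ++ m, bs, xs, ?_, ?_, h5⟩
      · cases a with
        | none => exact h3
        | some a => exact Ins.main (h2 a rfl) h3
      · exact Tr.Run.cons h1 h4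
    · obtain ⟨rfl, h1, h2⟩ := hs
      obtain ⟨b, u', v1, v', m, bs, xs, rfl, rfl, h3, h4, h5, h6, h7⟩ := ih
      have h8 : Slots k S (x' :: xs) (b :: bs) (v1 ++ v') := Slots.cons h3 h4 h7
      refine ⟨a.toList ++ m, b :: bs, x' :: xs, ?_, ?_, h8⟩
      · cases a with
        | none => exact Ins.slot h3 h5
        | some a => exact Ins.main (h2 a rfl) (Ins.slot h3 h5)
      · exact Tr.Run.cons h1 h6
    · exact hs.elim
    · exact hs.elim
    · exact hs.elim
    · obtain ⟨rfl, rfl, rfl, rfl, h1, h2⟩ := hs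
      obtain ⟨b, u', v1, v', m, bs, xs, rfl, rfl, h3, ⟨s', h4, h5⟩, h6, h7, h8⟩ := ih
      rw [h2] at h3
      exact ⟨b, u', v1, v', m, bs, xs, rfl, rfl, h3, ⟨_, s', h1, h5, h4⟩, h6, h7, h8⟩
    · obtain ⟨rfl, rfl, rfl, h1, h2⟩ := hs
      obtain ⟨m, bs, xs, h3, h4, h5⟩ := ih
      exact ⟨[], u, [], v, m, bs, xs, rfl, rfl, by rw [h2]; rfl, ⟨s, Tr.Run.nil _, h1⟩, h3, h4, h5⟩
    · exact hs.elim
    · obtain ⟨rfl, ⟨rfl, h1⟩, h2⟩ := hs
      obtain ⟨b, u', v1, v', m, bs, xs, rfl, rfl, h3, ⟨s'', h4, h5⟩, h6, h7, h8⟩ := ih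
      refine ⟨a.toList ++ b, u', y.toList ++ v1, v', m, bs, xs, by simp, by simp, ?_,
        ⟨s'', Tr.Run.cons h1 h4, h5⟩, h6, h7, h8⟩
      rcases h2 with ⟨rfl, rfl⟩ | ⟨b0, rfl, h2⟩
      · exact h3
      · rw [Option.toList_some, List.cons_append, List.nil_append, dst_cons, h2]
        exact h3

end

theorem P0_isoc {z : ℕ} {m : List G} (h : P z m) (hz : z = 0) : ∀ a ∈ m, isoc a := by
  induction h with
  | nil => intro a ha; simp at ha
  | @wrap z x w _ ih =>
    intro a ha
    simp only [List.mem_cons, List.mem_append, List.not_mem_nil, or_false] at ha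
    rcases ha with rfl | ha | rfl
    · trivial
    · exact ih hz a ha
    · trivial
  | left _ _ _ _ => omega
  | right _ _ _ _ => omega

/-- `L` with every letter `x` replaced by words of `τ x` -/
def substL {X Y : Type} (L : Language X) (τ : X → Language Y) : Language Y :=
  {v | ∃ u ∈ L, v ∈ (u.map τ).prod}

theorem mem_prod_map_cons {X Y : Type} (τ : X → Language Y) (x : X) (u : List X) (v : List Y) :
    v ∈ ((x :: u).map τ).prod ↔ ∃ v1 ∈ τ x, ∃ v2 ∈ (u.map τ).prod, v1 ++ v2 = v := by
  rw [List.map_cons, List.prod_cons, Language.mem_mul]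

theorem inCone_subst {X Y : Type} [Fintype X] [Fintype Y] {k : ℕ} {L : Language X}
    {τ : X → Language Y} (hL : InCone (PL 0) L) (hτ : ∀ x, InCone (PL k) (τ x)) :
    InCone (PL (k + 1)) (substL L τ) := by
  obtain ⟨T, hT⟩ := hL.exists_tr
  choose S hS using fun x => (hτ x).exists_tr
  have key1 : ∀ (xs : List X) (v : List Y), v ∈ (xs.map τ).prod →
      ∃ bs, Slots k S xs bs v ∧ ∀ b ∈ bs, P k b := by
    intro xs
    induction xs with
    | nil =>
      intro v hv
      rw [List.map_nil, List.prod_nil, Language.mem_one] at hv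
      subst hv
      exact ⟨[], Slots.nil, by simp⟩
    | cons x xs ih =>
      intro v hv
      obtain ⟨v1, h1, v2, h2, rfl⟩ := (mem_prod_map_cons τ x xs v).1 hv
      obtain ⟨bs, h3, h4⟩ := ih v2 h2
      obtain ⟨b, hb, hbv⟩ := (hS x v1).1 h1
      have hb' : P k b := hb
      refine ⟨b :: bs, Slots.cons (P_dst hb' k 0 (by omega)) hbv h3, ?_⟩
      intro b' hb''
      rcases List.mem_cons.1 hb'' with rfl | h
      · exact hb'
      · exact h4 _ h
  have key2 : ∀ (xs : List X) (bs : List (List G)) (v : List Y), Slots k S xs bs v →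
      (∀ b ∈ bs, P k b) → v ∈ (xs.map τ).prod := by
    intro xs bs v h
    induction h with
    | nil => intro _; rw [List.map_nil, List.prod_nil, Language.mem_one]
    | @cons x xs b bs v v' _ hbv _ ih =>
      intro hb
      rw [mem_prod_map_cons]
      exact ⟨v, (hS x v).2 ⟨b, hb b (by simp), hbv⟩, v', ih (fun b' hb' => hb b' (by simp [hb'])),
        rfl⟩
  apply InCone_of_tr (PL (k + 1)) (subTr k T S)
  intro v
  constructor
  · rintro ⟨xs, hxs, hv⟩
    obtain ⟨m, hm, p, q, hp, hq, hr⟩ := (hT xs).1 hxs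
    have hm' : P 0 m := hm
    obtain ⟨bs, h1, h2⟩ := key1 xs v hv
    obtain ⟨u, h3, h4⟩ := sub_run_of k T S hr (P0_isoc hm' rfl) h1
    exact ⟨u, P_of_Ins hm' h3 h2, St.main p, St.main q, ⟨p, rfl, hp⟩, ⟨q, rfl, hq⟩, h4⟩
  · rintro ⟨u, hu, p, q, ⟨p', rfl, hp⟩, ⟨q', rfl, hq⟩, hr⟩
    have hu' : P (k + 1) u := hu
    obtain ⟨m, bs, xs, h1, h2, h3⟩ := subSem_of_run k T S hr rfl
    obtain ⟨m', bs', h4, h5, h6⟩ := P_exists_Ins hu' rfl
    obtain ⟨rfl, rfl⟩ := Ins_unique h1 h4
    exact ⟨xs, (hT xs).2 ⟨m, h5, p', q', hp, hq, h2⟩, key2 xs bs v h3 h6⟩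

end Pool.Agent.TH734.Nst
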